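import Pool.Agent.helper34.SE.Brooks

/-! # The cover of the vertices of degree 3 and the colouring of the covering edges (for MP_dc5fcd_co) -/

set_option autoImplicit false

namespace Pool.Agent.helper34.SE

variable {V : Type} [Fintype V] [DecidableEq V] (G : SimpleGraph V)

/-- degree three. -/
def T3 (v : V) : Prop := (nb G v).card = 3

/-- the hypotheses on the graph. -/
structure Hyp (κ : V → Fin 2) : Prop where
  col : ∀ u v, G.Adj u v → κ u ≠ κ v
  deg : ∀ v, (nb G v).card ≤ 3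
  no4 : ∀ a b c d, G.Adj a b → G.Adj b c → G.Adj c d → G.Adj d a → a ≠ c → b ≠ d → False
  low : ∀ v, T3 G v → ∃ w, G.Adj v w ∧ ¬ T3 G w

/-- a minimal cover. -/
structure Cov (S : Finset V) (b : V → V) : Prop where
  sD : ∀ s ∈ S, ¬ T3 G s
  bS : ∀ t, T3 G t → b t ∈ S
  bA : ∀ t, T3 G t → G.Adj t (b t)
  pv : ∀ s ∈ S, ∃ t, T3 G t ∧ G.Adj t s ∧ ∀ s' ∈ S, G.Adj t s' → s' = s

variable {G}

theorem exists_cov {κ : V → Fin 2} (h : Hyp G κ) : ∃ (S : Finset V) (b : V → V), Cov G S b := by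
  classical
  obtain ⟨Fam, hFam⟩ : ∃ Fam : Finset (Finset V), ∀ S, S ∈ Fam ↔ ((∀ s ∈ S, ¬ T3 G s) ∧ ∀ t, T3 G t → ∃ s ∈ S, G.Adj t s) :=
    ⟨Finset.univ.filter fun S : Finset V => (∀ s ∈ S, ¬ T3 G s) ∧ ∀ t, T3 G t → ∃ s ∈ S, G.Adj t s, fun S => by simp⟩
  have hne : Fam.Nonempty := by
    refine ⟨Finset.univ.filter fun v => ¬ T3 G v, (hFam _).2 ⟨?_, ?_⟩⟩
    · intro s hs
      exact (Finset.mem_filter.1 hs).2
    · intro t ht
      obtain ⟨w, hw, hw'⟩ := h.low t ht
      exact ⟨w, Finset.mem_filter.2 ⟨Finset.mem_univ _, hw'⟩, hw⟩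
  obtain ⟨S, hS, hmin⟩ := Finset.exists_min_image Fam Finset.card hne
  obtain ⟨h1, h2⟩ := (hFam S).1 hS
  have h3 : ∀ t, ∃ s, T3 G t → s ∈ S ∧ G.Adj t s := by
    intro t
    by_cases ht : T3 G t
    · obtain ⟨s, hs, hs'⟩ := h2 t ht
      exact ⟨s, fun _ => ⟨hs, hs'⟩⟩
    · exact ⟨t, fun h => absurd h ht⟩
  choose b hb using h3
  refine ⟨S, b, h1, fun t ht => (hb t ht).1, fun t ht => (hb t ht).2, ?_⟩
  intro s hs
  have h4 : S.erase s ∉ Fam := by
    intro h5
    have h6 := hmin _ h5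
    have h7 := Finset.card_erase_lt_of_mem hs
    omega
  rw [hFam] at h4
  push Not at h4
  obtain ⟨t, ht, h5⟩ := h4 (fun s' hs' => h1 s' (Finset.mem_of_mem_erase hs'))
  have h6 : ∀ s' ∈ S, G.Adj t s' → s' = s := by
    intro s' hs' hts
    by_contra hne
    exact h5 s' (Finset.mem_erase.2 ⟨hne, hs'⟩) hts
  obtain ⟨s', hs', hts⟩ := h2 t ht
  have h7 := h6 s' hs' hts
  subst h7
  exact ⟨t, ht, hts, h6⟩

theorem low2 {κ : V → Fin 2} (h : Hyp G κ) {v : V} (hv : ¬ T3 G v) {x y z : V} (hx : G.Adj v x) (hy : G.Adj v y)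
    (hz : G.Adj v z) (hxy : x ≠ y) : z = x ∨ z = y := by
  by_contra hcon
  push Not at hcon
  have h1 : ({x, y, z} : Finset V).card = 3 := Finset.card_eq_three.2 ⟨x, y, z, hxy, hcon.1.symm, hcon.2.symm, rfl⟩
  have h2 : ({x, y, z} : Finset V) ⊆ nb G v := by
    intro w hw
    simp only [Finset.mem_insert, Finset.mem_singleton] at hw
    rw [mem_nb]
    rcases hw with rfl | rfl | rfl <;> assumption
  have h3 := Finset.card_le_card h2
  have h4 := h.deg v
  have h5 : (nb G v).card ≠ 3 := hv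
  omega

variable (G)

/-- the conflict graph of the covering edges. -/
def QG (b : V → V) : SimpleGraph V where
  Adj u v := u ≠ v ∧ T3 G u ∧ T3 G v ∧ (G.Adj u v ∨ b u = b v ∨ G.Adj (b u) (b v) ∨ G.Adj u (b v) ∨ G.Adj v (b u))
  symm := ⟨fun u v ⟨h1, h2, h3, h4⟩ => ⟨h1.symm, h3, h2, by
    rcases h4 with h | h | h | h | h
    · exact Or.inl h.symm
    · exact Or.inr (Or.inl h.symm)
    · exact Or.inr (Or.inr (Or.inl h.symm))
    · exact Or.inr (Or.inr (Or.inr (Or.inr h)))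
    · exact Or.inr (Or.inr (Or.inr (Or.inl h)))⟩⟩
  loopless := ⟨fun u h => h.1 rfl⟩

/-- `w` is in conflict with `v` via the neighbour `x` of `v`. -/
def Via (b : V → V) (v x w : V) : Prop :=
  w ≠ v ∧ T3 G w ∧ (w = x ∨ (x ≠ b v ∧ b w = x) ∨ (x = b v ∧ (G.Adj w x ∨ G.Adj (b w) x)))

variable {G}

theorem via_unique {κ : V → Fin 2} (h : Hyp G κ) {S : Finset V} {b : V → V} (hc : Cov G S b) {v x p q : V}
    (hv : T3 G v) (hx : G.Adj v x) (hp : Via G b v x p) (hq : Via G b v x q) : p = q := by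
  obtain ⟨hpv, hpT, hp⟩ := hp
  obtain ⟨hqv, hqT, hq⟩ := hq
  have hbp := hc.sD _ (hc.bS p hpT)
  have hbq := hc.sD _ (hc.bS q hqT)
  have hbpA := hc.bA p hpT
  have hbqA := hc.bA q hqT
  by_cases hxb : x = b v
  · have hxT : ¬ T3 G x := by
      rw [hxb]
      exact hc.sD _ (hc.bS v hv)
    have hp' : G.Adj p x ∨ G.Adj (b p) x := by
      rcases hp with h1 | ⟨h1, _⟩ | ⟨_, h1⟩
      · exact absurd (h1 ▸ hpT) hxT
      · exact absurd hxb h1
      · exact h1
    have hq' : G.Adj q x ∨ G.Adj (b q) x := by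
      rcases hq with h1 | ⟨h1, _⟩ | ⟨_, h1⟩
      · exact absurd (h1 ▸ hqT) hxT
      · exact absurd hxb h1
      · exact h1
    rcases hp' with h1 | h1
    · rcases hq' with h2 | h2
      · rcases low2 h hxT hx.symm h1.symm h2.symm hpv.symm with h3 | h3
        · exact absurd h3 hqv
        · exact h3.symm
      · rcases low2 h hxT hx.symm h1.symm h2.symm hpv.symm with h3 | h3
        · exact absurd (h3 ▸ hv) hbq
        · exact absurd (h3 ▸ hpT) hbq
    · rcases hq' with h2 | h2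
      · rcases low2 h hxT hx.symm h2.symm h1.symm hqv.symm with h3 | h3
        · exact absurd (h3 ▸ hv) hbp
        · exact absurd (h3 ▸ hqT) hbp
      · have h3 : v ≠ b p := fun h3 => hbp (h3 ▸ hv)
        rcases low2 h hxT hx.symm h1.symm h2.symm h3 with h4 | h4
        · exact absurd (h4 ▸ hv) hbq
        · rw [h4] at hbqA
          have h5 : x ≠ p := fun h5 => hxT (h5 ▸ hpT)
          rcases low2 h hbp h1 hbpA.symm hbqA.symm h5 with h6 | h6
          · exact absurd (h6 ▸ hqT) hxT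
          · exact h6.symm
  · have hp' : p = x ∨ b p = x := by
      rcases hp with h1 | ⟨_, h1⟩ | ⟨h1, _⟩
      · exact Or.inl h1
      · exact Or.inr h1
      · exact absurd h1 hxb
    have hq' : q = x ∨ b q = x := by
      rcases hq with h1 | ⟨_, h1⟩ | ⟨h1, _⟩
      · exact Or.inl h1
      · exact Or.inr h1
      · exact absurd h1 hxb
    rcases hp' with h1 | h1
    · rcases hq' with h2 | h2
      · exact h1.trans h2.symm
      · rw [h2, ← h1] at hbq
        exact absurd hpT hbq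
    · rcases hq' with h2 | h2
      · rw [h1, ← h2] at hbp
        exact absurd hqT hbp
      · rw [h1] at hbpA hbp
        rw [h2] at hbqA
        rcases low2 h hbp hx.symm hbpA.symm hbqA.symm hpv.symm with h3 | h3
        · exact absurd h3 hqv
        · exact h3.symm

theorem via_exists {S : Finset V} {b : V → V} (hc : Cov G S b) {v w : V} (hvw : (QG G b).Adj v w) :
    ∃ x, G.Adj v x ∧ Via G b v x w := by
  obtain ⟨h1, h2, h3, h4⟩ := hvw
  rcases h4 with h4 | h4 | h4 | h4 | h4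
  · exact ⟨w, h4, h1.symm, h3, Or.inl rfl⟩
  · refine ⟨b v, hc.bA v h2, h1.symm, h3, Or.inr (Or.inr ⟨rfl, Or.inl ?_⟩)⟩
    rw [h4]
    exact hc.bA w h3
  · exact ⟨b v, hc.bA v h2, h1.symm, h3, Or.inr (Or.inr ⟨rfl, Or.inr h4.symm⟩)⟩
  · by_cases h5 : b w = b v
    · exact ⟨b w, h4, h1.symm, h3, Or.inr (Or.inr ⟨h5, Or.inl (hc.bA w h3)⟩)⟩
    · exact ⟨b w, h4, h1.symm, h3, Or.inr (Or.inl ⟨h5, rfl⟩)⟩
  · exact ⟨b v, hc.bA v h2, h1.symm, h3, Or.inr (Or.inr ⟨rfl, Or.inl h4⟩)⟩

theorem cover_card {κ : V → Fin 2} (h : Hyp G κ) {S : Finset V} {b : V → V} (hc : Cov G S b) {v : V} (hv : T3 G v)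
    (K X : Finset V) (hX : ∀ x ∈ X, G.Adj v x) (hK : ∀ w ∈ K, ∃ x ∈ X, Via G b v x w) : K.card ≤ X.card := by
  classical
  have h1 : ∀ w, ∃ x, w ∈ K → x ∈ X ∧ Via G b v x w := by
    intro w
    by_cases hw : w ∈ K
    · obtain ⟨x, hx, hx'⟩ := hK w hw
      exact ⟨x, fun _ => ⟨hx, hx'⟩⟩
    · exact ⟨w, fun h => absurd h hw⟩
  choose f hf using h1
  apply Finset.card_le_card_of_injOn f
  · intro w hw
    exact (hf w hw).1
  · intro p hp q hq hpq
    have h2 := hf p hp
    have h3 := hf q hq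
    rw [← hpq] at h3
    exact via_unique h hc hv (hX _ h2.1) h2.2 h3.2

theorem qdeg {κ : V → Fin 2} (h : Hyp G κ) {S : Finset V} {b : V → V} (hc : Cov G S b) (v : V) :
    (nb (QG G b) v).card ≤ 3 := by
  by_cases hv : T3 G v
  · refine (cover_card h hc hv _ (nb G v) (fun x hx => (mem_nb G v x).1 hx) ?_).trans (h.deg v)
    intro w hw
    obtain ⟨x, hx, hx'⟩ := via_exists hc ((mem_nb _ _ _).1 hw)
    exact ⟨x, (mem_nb G v x).2 hx, hx'⟩
  · have h1 : nb (QG G b) v = ∅ := by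
      rw [Finset.eq_empty_iff_forall_notMem]
      intro w hw
      exact hv ((mem_nb _ _ _).1 hw).2.1
    rw [h1]
    simp

theorem hit {κ : V → Fin 2} (h : Hyp G κ) {S : Finset V} {b : V → V} (hc : Cov G S b) {v p q r : V}
    (hp : (QG G b).Adj v p) (hq : (QG G b).Adj v q) (hr : (QG G b).Adj v r) (hpq : p ≠ q) (hpr : p ≠ r) (hqr : q ≠ r)
    {x : V} (hx : G.Adj v x) : Via G b v x p ∨ Via G b v x q ∨ Via G b v x r := by
  classical
  by_contra hcon
  push Not at hcon
  have hv : T3 G v := hp.2.1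
  have h1 := cover_card h hc hv ({p, q, r} : Finset V) ((nb G v).erase x)
    (fun y hy => (mem_nb G v y).1 (Finset.mem_of_mem_erase hy)) (by
    intro w hw
    have h2 : (QG G b).Adj v w ∧ ¬ Via G b v x w := by
      simp only [Finset.mem_insert, Finset.mem_singleton] at hw
      rcases hw with rfl | rfl | rfl
      · exact ⟨hp, hcon.1⟩
      · exact ⟨hq, hcon.2.1⟩
      · exact ⟨hr, hcon.2.2⟩
    obtain ⟨y, hy, hy'⟩ := via_exists hc h2.1
    refine ⟨y, Finset.mem_erase.2 ⟨?_, (mem_nb G v y).2 hy⟩, hy'⟩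
    rintro rfl
    exact h2.2 hy')
  rw [Finset.card_erase_of_mem ((mem_nb G v x).2 hx), Finset.card_eq_three.2 ⟨p, q, r, hpq, hpr, hqr, rfl⟩] at h1
  have h2 := h.deg v
  omega

/-- an over-covered vertex is not in a `K4`. -/
theorem not_over {κ : V → Fin 2} (h : Hyp G κ) {S : Finset V} {b : V → V} (hc : Cov G S b) {v p q r : V}
    (hp : (QG G b).Adj v p) (hq : (QG G b).Adj v q) (hr : (QG G b).Adj v r) (hpq : (QG G b).Adj p q)
    (hpr : (QG G b).Adj p r) (hqr : (QG G b).Adj q r) {x : V} (hxS : x ∈ S) (hvx : G.Adj v x) : x = b v := by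
  by_contra hne
  have hv : T3 G v := hp.2.1
  -- the conflict via `x`
  have hK : ∀ y : V, G.Adj v y → ∃ w, (w = p ∨ w = q ∨ w = r) ∧ Via G b v y w := by
    intro y hy
    rcases hit h hc hp hq hr hpq.1 hpr.1 hqr.1 hy with h1 | h1 | h1
    · exact ⟨p, Or.inl rfl, h1⟩
    · exact ⟨q, Or.inr (Or.inl rfl), h1⟩
    · exact ⟨r, Or.inr (Or.inr rfl), h1⟩
  obtain ⟨w, hwK, hwv, hwT, hw⟩ := hK x hvx
  obtain ⟨w', hwK', hwv', hwT', hw'⟩ := hK (b v) (hc.bA v hv)
  have hxT := hc.sD x hxS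
  have hbvS := hc.bS v hv
  have hbvT := hc.sD _ hbvS
  have hbw : b w = x := by
    rcases hw with h1 | ⟨_, h1⟩ | ⟨h1, _⟩
    · exact absurd (h1 ▸ hwT) hxT
    · exact h1
    · exact absurd h1 hne
  have hwx : G.Adj w x := by
    rw [← hbw]
    exact hc.bA w hwT
  -- `w'` is the private neighbour of `b v`
  obtain ⟨t, htT, htA, htP⟩ := hc.pv _ hbvS
  have htv : t ≠ v := by
    rintro rfl
    exact hne (htP x hxS hvx)
  have hw't : w' = t := by
    have h1 : G.Adj w' (b v) ∨ G.Adj (b w') (b v) := by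
      rcases hw' with h1 | ⟨h1, _⟩ | ⟨_, h1⟩
      · exact absurd (h1 ▸ hwT') hbvT
      · exact absurd rfl h1
      · exact h1
    rcases h1 with h1 | h1
    · rcases low2 h hbvT (hc.bA v hv).symm htA.symm h1.symm htv.symm with h2 | h2
      · exact absurd h2 hwv'
      · exact h2
    · have h3 := hc.sD _ (hc.bS w' hwT')
      rcases low2 h hbvT (hc.bA v hv).symm htA.symm h1.symm htv.symm with h2 | h2
      · exact absurd (h2 ▸ hv) h3
      · exact absurd (h2 ▸ htT) h3
  rw [← hw't] at htA htP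
  have hbw' : b w' = b v := htP _ (hc.bS w' hwT') (hc.bA w' hwT')
  -- `w` is the private neighbour of `x`
  obtain ⟨t', htT', htA', htP'⟩ := hc.pv _ hxS
  have htv' : t' ≠ v := by
    rintro rfl
    exact hne (htP' _ hbvS (hc.bA _ hv)).symm
  have hwt' : t' = w := by
    rcases low2 h hxT hvx.symm hwx.symm htA'.symm hwv.symm with h2 | h2
    · exact absurd h2 htv'
    · exact h2
  rw [hwt'] at htP'
  have hww : w ≠ w' := by
    rintro rfl
    rw [hbw] at hbw'
    exact hne hbw'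
  have hadj : (QG G b).Adj w w' := by
    rcases hwK with rfl | rfl | rfl <;> rcases hwK' with rfl | rfl | rfl <;>
      first | exact absurd rfl hww | assumption | exact (QG G b).symm.symm _ _ (by assumption)
  have alt : ∀ i j k : Fin 2, i ≠ j → j ≠ k → i = k := by decide
  have two : ∀ i j k l m : Fin 2, i ≠ j → j ≠ k → k ≠ l → l ≠ m → m ≠ i → False := by
    intro i j k l m h1 h2 h3 h4 h5
    exact h5 ((alt _ _ _ h1 h2).trans (alt _ _ _ h3 h4)).symm
  have two' : ∀ i j k : Fin 2, i ≠ j → j ≠ k → k ≠ i → False := by decide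
  rcases hadj.2.2.2 with h1 | h1 | h1 | h1 | h1
  · exact two _ _ _ _ _ (h.col _ _ (hc.bA v hv)) (h.col _ _ htA.symm) (h.col _ _ h1.symm) (h.col _ _ hwx)
      (h.col _ _ hvx.symm)
  · rw [hbw, hbw'] at h1
    exact hne h1
  · rw [hbw, hbw'] at h1
    exact two' _ _ _ (h.col _ _ hvx) (h.col _ _ h1) (h.col _ _ (hc.bA v hv).symm)
  · rw [hbw'] at h1
    exact hne (htP' _ hbvS h1).symm
  · rw [hbw] at h1
    exact hne (htP _ hxS h1)

/-- at most one of the three others is not a neighbour. -/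
theorem one_non {κ : V → Fin 2} (h : Hyp G κ) {S : Finset V} {b : V → V} (hc : Cov G S b) {v p q r : V}
    (hp : (QG G b).Adj v p) (hq : (QG G b).Adj v q) (hr : (QG G b).Adj v r) (hpq : (QG G b).Adj p q)
    (hpr : (QG G b).Adj p r) (hqr : (QG G b).Adj q r) (h1 : ¬ G.Adj v p) (h2 : ¬ G.Adj v q) : False := by
  have hv : T3 G v := hp.2.1
  have key : ∀ w, (QG G b).Adj v w → ¬ G.Adj v w → Via G b v (b v) w := by
    intro w hw hn
    obtain ⟨x, hx, hx'⟩ := via_exists hc hw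
    by_cases hxb : x = b v
    · rw [← hxb]
      exact hx'
    · exfalso
      rcases hx'.2.2 with h3 | ⟨_, h3⟩ | ⟨h3, _⟩
      · rw [← h3] at hx
        exact hn hx
      · have h4 : x ∈ S := by
          rw [← h3]
          exact hc.bS w hx'.2.1
        exact hxb (not_over h hc hp hq hr hpq hpr hqr h4 hx)
      · exact hxb h3
  exact hpq.1 (via_unique h hc hv (hc.bA v hv) (key p hp h1) (key q hq h2))

theorem noK {κ : V → Fin 2} (h : Hyp G κ) {S : Finset V} {b : V → V} (hc : Cov G S b) (p q r s : V)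
    (hpq : (QG G b).Adj p q) (hpr : (QG G b).Adj p r) (hps : (QG G b).Adj p s) (hqr : (QG G b).Adj q r)
    (hqs : (QG G b).Adj q s) (hrs : (QG G b).Adj r s) : False := by
  have two' : ∀ i j k : Fin 2, i ≠ j → j ≠ k → k ≠ i → False := by decide
  have tri : ∀ x y z, G.Adj x y → G.Adj y z → G.Adj z x → False := by
    intro x y z h1 h2 h3
    exact two' _ _ _ (h.col _ _ h1) (h.col _ _ h2) (h.col _ _ h3)
  have main : ∀ a b' c d, (QG G b).Adj a b' → (QG G b).Adj a c → (QG G b).Adj a d → (QG G b).Adj b' c →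
      (QG G b).Adj b' d → (QG G b).Adj c d → ¬ G.Adj a b' → False := by
    intro a b' c d hab hac had hbc hbd hcd hn
    have h1 : G.Adj a c := by
      by_contra h1
      exact one_non h hc hab hac had hbc hbd hcd hn h1
    have h2 : G.Adj a d := by
      by_contra h2
      exact one_non h hc hab had hac hbd hbc hcd.symm hn h2
    have h3 : ¬ G.Adj c d := fun h3 => tri _ _ _ h1 h3 h2.symm
    have h4 : G.Adj c b' := by
      by_contra h4
      exact one_non h hc hcd hbc.symm hac.symm hbd.symm had.symm hab.symm h3 h4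
    have h5 : G.Adj d b' := by
      by_contra h5
      exact one_non h hc hcd.symm hbd.symm had.symm hbc.symm hac.symm hab.symm (fun h6 => h3 h6.symm) h5
    exact h.no4 a c b' d h1 h4 h5.symm h2.symm hab.1 hcd.1
  by_cases h1 : G.Adj p q
  · by_cases h2 : G.Adj p r
    · by_cases h3 : G.Adj p s
      · have h4 : ¬ G.Adj q r := fun h4 => tri _ _ _ h1 h4 h2.symm
        have h5 : ¬ G.Adj q s := fun h5 => tri _ _ _ h1 h5 h3.symm
        exact one_non h hc hqr hqs hpq.symm hrs hpr.symm hps.symm h4 h5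
      · exact main p s q r hps hpq hpr hqs.symm hrs.symm hqr h3
    · exact main p r q s hpr hpq hps hqr.symm hrs hqs h2
  · exact main p q r s hpq hpr hps hqr hqs hrs h1

/-- the colouring of the covering edges. -/
theorem exists_beta {κ : V → Fin 2} (h : Hyp G κ) {S : Finset V} {b : V → V} (hc : Cov G S b) :
    ∃ β : V → Fin 3, ∀ u v, (QG G b).Adj u v → β u ≠ β v :=
  brooks3 (QG G b) (qdeg h hc) (noK h hc)

end Pool.Agent.helper34.SE
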