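import Mathlib

/-!
# The theorem of Brooks for maximum degree 3 (proof of Zajac)

Used for MP_dc5fcd_co (strong edge colourings). A graph with all degrees at most 3 and without four pairwise
adjacent vertices has a proper colouring with 3 colours.
-/

set_option autoImplicit false

namespace Pool.Agent.helper34.SE

variable {V : Type} [Fintype V] [DecidableEq V] (G : SimpleGraph V)

/-- proper on a finite set. -/
def PrOn (S : Finset V) (c : V → Fin 3) : Prop := ∀ x ∈ S, ∀ y ∈ S, G.Adj x y → c x ≠ c y

/-- every element but the last one has a neighbour in the rest of the list; the last one is `ρ`. -/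
inductive Tr (ρ : V) : List V → Prop
  | base : Tr ρ [ρ]
  | step (w z : V) (L : List V) : z ∈ L → G.Adj w z → Tr ρ L → Tr ρ (w :: L)

theorem free_color (X : Finset V) (c : V → Fin 3) (h : X.card ≤ 2) : ∃ k : Fin 3, ∀ y ∈ X, c y ≠ k := by
  by_contra hcon
  push Not at hcon
  have h1 : (Finset.univ : Finset (Fin 3)) ⊆ X.image c := by
    intro k _
    obtain ⟨y, hy, hk⟩ := hcon k
    exact Finset.mem_image.2 ⟨y, hy, hk⟩
  have h2 := Finset.card_le_card h1
  have h3 := Finset.card_image_le (s := X) (f := c)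
  simp at h2
  omega

omit [Fintype V] in
/-- extension to a vertex with a free colour. -/
theorem ext_one (S : Finset V) (c : V → Fin 3) (hc : PrOn G S c) (w : V) (hw : w ∉ S) (k : Fin 3)
    (hk : ∀ y ∈ S, G.Adj w y → c y ≠ k) :
    PrOn G (insert w S) (Function.update c w k) := by
  intro x hx0 y hy0 hxy
  rcases Finset.mem_insert.1 hx0 with hx | hx
  · rcases Finset.mem_insert.1 hy0 with hy | hy
    · rw [hx, hy] at hxy
      exact absurd hxy (G.loopless.irrefl _)
    · have h1 : y ≠ w := fun h => hw (h ▸ hy)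
      rw [hx, Function.update_self, Function.update_of_ne h1]
      rw [hx] at hxy
      exact (hk y hy hxy).symm
  · rcases Finset.mem_insert.1 hy0 with hy | hy
    · have h1 : x ≠ w := fun h => hw (h ▸ hx)
      rw [hy, Function.update_self, Function.update_of_ne h1]
      rw [hy] at hxy
      exact hk x hx hxy.symm
    · have h1 : x ≠ w := fun h => hw (h ▸ hx)
      have h2 : y ≠ w := fun h => hw (h ▸ hy)
      rw [Function.update_of_ne h1, Function.update_of_ne h2]
      exact hc x hx y hy hxy

/-- the neighbours. -/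
noncomputable def nb (v : V) : Finset V := by
  classical exact Finset.univ.filter fun w => G.Adj v w

omit [DecidableEq V] in
theorem mem_nb (v w : V) : w ∈ nb G v ↔ G.Adj v w := by
  classical
  unfold nb
  simp

theorem greedy (hdeg : ∀ v, (nb G v).card ≤ 3) (ρ : V) (L : List V) (hL : Tr G ρ L) :
    ∀ (S : Finset V) (c : V → Fin 3), (∀ x ∈ L, x ∉ S) → L.Nodup → PrOn G S c →
      (∃ a ∈ S, ∃ b ∈ S, a ≠ b ∧ G.Adj ρ a ∧ G.Adj ρ b ∧ c a = c b) →
      ∃ c' : V → Fin 3, (∀ x ∈ S, c' x = c x) ∧ PrOn G (S ∪ L.toFinset) c' := by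
  induction hL with
  | base =>
    intro S c hS _ hc hab
    obtain ⟨a, ha, b, hb, hab, hra, hrb, hcc⟩ := hab
    have hρ : ρ ∉ S := hS ρ (List.mem_singleton.2 rfl)
    -- a free colour
    have h1 : ((nb G ρ).erase b).card ≤ 2 := by
      rw [Finset.card_erase_of_mem ((mem_nb G ρ b).2 hrb)]
      have := hdeg ρ
      omega
    obtain ⟨k, hk⟩ := free_color ((nb G ρ).erase b) c h1
    refine ⟨Function.update c ρ k, ?_, ?_⟩
    · intro x hx
      rw [Function.update_of_ne]
      rintro rfl
      exact hρ hx
    · have h2 := ext_one G S c hc ρ hρ k (by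
        intro y _ hy
        by_cases hyb : y = b
        · rw [hyb, ← hcc]
          exact hk a (Finset.mem_erase.2 ⟨hab, (mem_nb G ρ a).2 hra⟩)
        · exact hk y (Finset.mem_erase.2 ⟨hyb, (mem_nb G ρ y).2 hy⟩))
      have h3 : S ∪ ([ρ] : List V).toFinset = insert ρ S := by
        ext x
        simp
      rw [h3]
      exact h2
  | step w z L hz hwz _ ih =>
    intro S c hS hnd hc hab
    have hw : w ∉ S := hS w (List.mem_cons_self ..)
    have hzS : z ∉ S := hS z (List.mem_cons_of_mem _ hz)
    have hnd' := List.nodup_cons.1 hnd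
    have h1 : ((nb G w).erase z).card ≤ 2 := by
      rw [Finset.card_erase_of_mem ((mem_nb G w z).2 hwz)]
      have := hdeg w
      omega
    obtain ⟨k, hk⟩ := free_color ((nb G w).erase z) c h1
    have h2 := ext_one G S c hc w hw k (by
      intro y hyS hy
      have hyz : y ≠ z := fun h => hzS (h ▸ hyS)
      exact hk y (Finset.mem_erase.2 ⟨hyz, (mem_nb G w y).2 hy⟩))
    obtain ⟨a, ha, b, hb, hab, hra, hrb, hcc⟩ := hab
    have haw : a ≠ w := fun h => hw (h ▸ ha)
    have hbw : b ≠ w := fun h => hw (h ▸ hb)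
    obtain ⟨c', h3, h4⟩ := ih (insert w S) (Function.update c w k) (by
      intro x hx hxS
      rcases Finset.mem_insert.1 hxS with h | h
      · exact hnd'.1 (h ▸ hx)
      · exact hS x (List.mem_cons_of_mem _ hx) h) hnd'.2 h2
      ⟨a, Finset.mem_insert_of_mem ha, b, Finset.mem_insert_of_mem hb, hab, hra, hrb, by
        rw [Function.update_of_ne haw, Function.update_of_ne hbw, hcc]⟩
    refine ⟨c', ?_, ?_⟩
    · intro x hx
      rw [h3 x (Finset.mem_insert_of_mem hx), Function.update_of_ne]
      rintro rfl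
      exact hw hx
    · have h5 : S ∪ (w :: L).toFinset = insert w S ∪ L.toFinset := by
        ext x
        simp
      rw [h5]
      exact h4

omit [Fintype V] [DecidableEq V] in
theorem Tr_rev (ρ : V) (A : List V) : ∀ M : List V, Tr G ρ M → A.IsChain G.Adj →
    (∀ a ∈ A.head?, ∃ z ∈ M, G.Adj a z) → Tr G ρ (A.reverse ++ M) := by
  induction A with
  | nil => intro M hM _ _; simpa using hM
  | cons p A ih =>
    intro M hM hch hh
    obtain ⟨z, hz, hpz⟩ := hh p (by simp)
    have h1 : (p :: A).reverse ++ M = A.reverse ++ (p :: M) := by simp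
    rw [h1]
    refine ih (p :: M) (Tr.step p z M hz hpz hM) hch.of_cons ?_
    intro a ha
    refine ⟨p, List.mem_cons_self .., ?_⟩
    cases A with
    | nil => simp at ha
    | cons q A =>
      simp only [List.head?_cons, Option.mem_def, Option.some.injEq] at ha
      subst ha
      exact (List.isChain_cons_cons.1 hch).1.symm

omit [Fintype V] [DecidableEq V] in
theorem Tr_app (ρ : V) (D : List V) (M : List V) (hM : Tr G ρ M) (x : V) (hx : x ∈ M)
    (hch : (D ++ [x]).IsChain G.Adj) : Tr G ρ (D ++ M) := by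
  induction D with
  | nil => simpa using hM
  | cons d D ih =>
    have hch' : (d :: (D ++ [x])).IsChain G.Adj := hch
    have h1 := ih hch'.of_cons
    cases D with
    | nil =>
      refine Tr.step d x M hx ?_ hM
      simpa using hch'
    | cons e D =>
      refine Tr.step d e ((e :: D) ++ M) (by simp) ?_ h1
      exact (List.isChain_cons_cons.1 hch').1

omit [Fintype V] [DecidableEq V] in
/-- the last element with a property. -/
theorem last_with (p : V → Prop) (l : List V) (h : ∃ z ∈ l, p z) :
    ∃ C z R, l = C ++ z :: R ∧ p z ∧ ∀ y ∈ R, ¬ p y := by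
  induction l with
  | nil => simp at h
  | cons a l ih =>
    by_cases h1 : ∃ z ∈ l, p z
    · obtain ⟨C, z, R, h2, h3, h4⟩ := ih h1
      exact ⟨a :: C, z, R, by rw [h2]; rfl, h3, h4⟩
    · push Not at h1
      obtain ⟨z, hz, hpz⟩ := h
      rcases List.mem_cons.1 hz with h2 | h2
      · subst h2
        exact ⟨[], z, l, rfl, hpz, h1⟩
      · exact absurd hpz (h1 z h2)

omit [Fintype V] [DecidableEq V] in
/-- the first element with a property. -/
theorem first_with (p : V → Prop) (l : List V) (h : ∃ z ∈ l, p z) :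
    ∃ C z R, l = C ++ z :: R ∧ p z ∧ ∀ y ∈ C, ¬ p y := by
  induction l with
  | nil => simp at h
  | cons a l ih =>
    by_cases ha : p a
    · exact ⟨[], a, l, rfl, ha, by simp⟩
    · have h1 : ∃ z ∈ l, p z := by
        obtain ⟨z, hz, hpz⟩ := h
        rcases List.mem_cons.1 hz with h2 | h2
        · subst h2; exact absurd hpz ha
        · exact ⟨z, h2, hpz⟩
      obtain ⟨C, z, R, h2, h3, h4⟩ := ih h1
      refine ⟨a :: C, z, R, by rw [h2]; rfl, h3, ?_⟩
      intro y hy
      rcases List.mem_cons.1 hy with h5 | h5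
      · subst h5; exact ha
      · exact h4 y h5

theorem brooks_on (hdeg : ∀ v, (nb G v).card ≤ 3)
    (hK : ∀ a b c d : V, G.Adj a b → G.Adj a c → G.Adj a d → G.Adj b c → G.Adj b d → G.Adj c d → False) :
    ∀ (n : ℕ) (S : Finset V), S.card = n → ∃ c : V → Fin 3, PrOn G S c := by
  classical
  intro n
  induction n using Nat.strong_induction_on with
  | _ n ih =>
  intro S hSn
  rcases S.eq_empty_or_nonempty with hS | ⟨v₂, hv₂⟩
  · subst hS
    exact ⟨fun _ => 0, fun x hx => absurd hx (Finset.notMem_empty x)⟩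
  by_cases hlow : ∃ v ∈ S, ((nb G v) ∩ S).card ≤ 2
  · obtain ⟨v, hv, hvd⟩ := hlow
    have h1 : (S.erase v).card < n := by
      rw [← hSn]
      exact Finset.card_erase_lt_of_mem hv
    obtain ⟨c, hc⟩ := ih _ h1 (S.erase v) rfl
    obtain ⟨k, hk⟩ := free_color ((nb G v) ∩ S) c hvd
    have h2 := ext_one G (S.erase v) c hc v (Finset.notMem_erase v S) k (by
      intro y hy hvy
      exact hk y (Finset.mem_inter.2 ⟨(mem_nb G v y).2 hvy, Finset.mem_of_mem_erase hy⟩))
    rw [Finset.insert_erase hv] at h2
    exact ⟨_, h2⟩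
  push Not at hlow
  -- all neighbours are in `S`, all degrees are three
  have hin : ∀ v ∈ S, ∀ w, G.Adj v w → w ∈ S := by
    intro v hv w hvw
    by_contra hw
    have h1 := hlow v hv
    have h2 : ((nb G v) ∩ S) ⊆ (nb G v).erase w := by
      intro y hy
      have hy' := Finset.mem_inter.1 hy
      refine Finset.mem_erase.2 ⟨?_, hy'.1⟩
      rintro rfl
      exact hw hy'.2
    have h3 := Finset.card_le_card h2
    rw [Finset.card_erase_of_mem ((mem_nb G v w).2 hvw)] at h3
    have := hdeg v
    omega
  have hthree : ∀ v ∈ S, (nb G v).card = 3 := by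
    intro v hv
    have h1 := hlow v hv
    have h2 := Finset.card_le_card (Finset.inter_subset_left (s₁ := nb G v) (s₂ := S))
    have := hdeg v
    omega
  -- the start of the path
  obtain ⟨v₁, v₃, h21, h23, h13, hn13⟩ : ∃ v₁ v₃ : V, G.Adj v₂ v₁ ∧ G.Adj v₂ v₃ ∧ v₁ ≠ v₃ ∧ ¬ G.Adj v₁ v₃ := by
    obtain ⟨a, b, c, hab, hac, hbc, habc⟩ := Finset.card_eq_three.1 (hthree v₂ hv₂)
    have ha : G.Adj v₂ a := (mem_nb G v₂ a).1 (by rw [habc]; simp)
    have hb : G.Adj v₂ b := (mem_nb G v₂ b).1 (by rw [habc]; simp)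
    have hc : G.Adj v₂ c := (mem_nb G v₂ c).1 (by rw [habc]; simp)
    by_cases h1 : G.Adj a b
    · by_cases h2 : G.Adj a c
      · by_cases h3 : G.Adj b c
        · exact absurd (hK v₂ a b c ha hb hc h1 h2 h3) id
        · exact ⟨b, c, hb, hc, hbc, h3⟩
      · exact ⟨a, c, ha, hc, hac, h2⟩
    · exact ⟨a, b, ha, hb, hab, h1⟩
  have hv₁ : v₁ ∈ S := hin v₂ hv₂ v₁ h21
  have hv₃ : v₃ ∈ S := hin v₂ hv₂ v₃ h23
  -- a maximal path
  obtain ⟨Q, ⟨hQch, hQnd, hQS⟩, hQmax⟩ : ∃ Q : List V,
      ((Q ++ [v₃, v₂, v₁]).IsChain G.Adj ∧ (Q ++ [v₃, v₂, v₁]).Nodup ∧ ∀ x ∈ Q ++ [v₃, v₂, v₁], x ∈ S) ∧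
      ∀ w, ¬ (((w :: Q) ++ [v₃, v₂, v₁]).IsChain G.Adj ∧ ((w :: Q) ++ [v₃, v₂, v₁]).Nodup ∧
        ∀ x ∈ (w :: Q) ++ [v₃, v₂, v₁], x ∈ S) := by
    by_contra hcon
    push Not at hcon
    have hall : ∀ k : ℕ, ∃ Q : List V, Q.length = k ∧ (Q ++ [v₃, v₂, v₁]).IsChain G.Adj ∧
        (Q ++ [v₃, v₂, v₁]).Nodup ∧ ∀ x ∈ Q ++ [v₃, v₂, v₁], x ∈ S := by
      intro k
      induction k with
      | zero =>
        refine ⟨[], rfl, ?_, ?_, ?_⟩
        · simp [h23.symm, h21]
        · have e1 := h23.ne'
          have e2 := h21.ne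
          have e3 := h13.symm
          simp [e1, e2, e3]
        · intro x hx
          simp at hx
          rcases hx with rfl | rfl | rfl <;> assumption
      | succ k ihk =>
        obtain ⟨Q, hQl, hQ1, hQ2, hQ3⟩ := ihk
        obtain ⟨w, hw1, hw2, hw3⟩ := hcon Q ⟨hQ1, hQ2, hQ3⟩
        exact ⟨w :: Q, by simp [hQl], hw1, hw2, hw3⟩
    obtain ⟨Q, hQl, -, hQ2, -⟩ := hall (Fintype.card V)
    have h1 := hQ2.length_le_card
    simp at h1
    omega
  obtain ⟨l, hl⟩ : ∃ l : List V, l = Q ++ [v₃, v₂, v₁] := ⟨_, rfl⟩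
  rw [← hl] at hQch hQnd hQS
  obtain ⟨h, l', hhl⟩ : ∃ (h : V) (l' : List V), l = h :: l' := by
    cases hl' : l with
    | nil =>
      rw [hl'] at hl
      cases Q <;> simp at hl
    | cons h l' => exact ⟨h, l', rfl⟩
  have hhS : h ∈ S := hQS h (by rw [hhl]; simp)
  -- all neighbours of `h` are on the path
  have hnbr : ∀ w, G.Adj h w → w ∈ l := by
    intro w hw
    by_contra hwl
    apply hQmax w
    rw [List.cons_append, ← hl]
    refine ⟨?_, List.nodup_cons.2 ⟨hwl, hQnd⟩, ?_⟩
    · rw [hhl]
      refine List.isChain_cons_cons.2 ⟨hw.symm, ?_⟩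
      rw [← hhl]
      exact hQch
    · intro x hx
      rcases List.mem_cons.1 hx with hx | hx
      · subst hx
        exact hin h hhS x hw
      · exact hQS x hx
  obtain ⟨w₀, hw₀⟩ : ∃ w, G.Adj h w := by
    have h1 := hthree h hhS
    have h2 : (nb G h).Nonempty := by
      rw [← Finset.card_pos]
      omega
    obtain ⟨w, hw⟩ := h2
    exact ⟨w, (mem_nb G h w).1 hw⟩
  obtain ⟨C, z, R, hlC, hhz, hR⟩ := last_with (G.Adj h) l ⟨w₀, hnbr w₀ hw₀, hw₀⟩
  have hlC' : l = (C ++ [z]) ++ R := by rw [hlC]; simp
  -- the cycle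
  obtain ⟨Cy, hCy⟩ : ∃ Cy : List V, Cy = C ++ [z] := ⟨_, rfl⟩
  rw [← hCy] at hlC'
  have hCynd : Cy.Nodup := by
    rw [hlC'] at hQnd
    exact hQnd.of_append_left
  have hCych : Cy.IsChain G.Adj := by
    rw [hlC'] at hQch
    exact hQch.left_of_append
  have hCyS : ∀ x ∈ Cy, x ∈ S := fun x hx => hQS x (by rw [hlC']; simp [hx])
  have hCh : ∃ C', C = h :: C' := by
    cases hC : C with
    | nil =>
      rw [hC, hhl] at hlC
      simp at hlC
      rw [hlC.1] at hhz
      exact absurd hhz (G.loopless.irrefl _)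
    | cons a C' =>
      rw [hC, hhl] at hlC
      simp at hlC
      exact ⟨C', by rw [hlC.1]⟩
  obtain ⟨C', hC'⟩ := hCh
  have hhCy : ∀ w, G.Adj h w → w ∈ Cy := by
    intro w hw
    have h1 := hnbr w hw
    rw [hlC'] at h1
    rcases List.mem_append.1 h1 with h2 | h2
    · exact h2
    · exact absurd hw (hR w h2)
  -- colour the rest
  have hlt : (S \ Cy.toFinset).card < n := by
    rw [← hSn]
    apply Finset.card_lt_card
    refine Finset.ssubset_iff_subset_ne.2 ⟨Finset.sdiff_subset, ?_⟩
    intro heq
    have h1 : h ∈ Cy.toFinset := by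
      rw [List.mem_toFinset, hCy, hC']
      simp
    have h2 : h ∈ S \ Cy.toFinset := by rw [heq]; exact hhS
    exact (Finset.mem_sdiff.1 h2).2 h1
  obtain ⟨c, hc⟩ := ih _ hlt (S \ Cy.toFinset) rfl
  by_cases hout : ∃ y ∈ Cy, ∃ u, G.Adj y u ∧ u ∉ Cy
  · -- a vertex of the cycle with a neighbour outside
    obtain ⟨A', y, B, hABy, ⟨u, hyu, huC⟩, hA'⟩ := first_with (fun y => ∃ u, G.Adj y u ∧ u ∉ Cy) Cy hout
    have hyS : y ∈ S := hCyS y (by rw [hABy]; simp)
    have huS : u ∈ S := hin y hyS u hyu
    -- `A'` is not empty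
    obtain ⟨A, x, hAx⟩ : ∃ (A : List V) (x : V), A' = A ++ [x] := by
      rcases List.eq_nil_or_concat A' with h1 | ⟨A, x, h1⟩
      · exfalso
        rw [h1, hCy, hC'] at hABy
        simp at hABy
        rw [← hABy.1] at hyu
        exact huC (hhCy u hyu)
      · exact ⟨A, x, by rw [h1]; simp⟩
    have hCyA : Cy = A ++ (x :: y :: B) := by rw [hABy, hAx]; simp
    have hnd := hCynd
    rw [hCyA] at hnd
    have hch := hCych
    rw [hCyA] at hch
    have hchA : A.IsChain G.Adj := hch.left_of_append
    have hchR : (x :: y :: B).IsChain G.Adj := hch.right_of_append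
    have hxy : G.Adj x y := (List.isChain_cons_cons.1 hchR).1
    have hchB : (y :: B).IsChain G.Adj := (List.isChain_cons_cons.1 hchR).2
    have hxno : ∀ w, G.Adj x w → w ∈ Cy := by
      intro w hw
      by_contra hwC
      exact hA' x (by rw [hAx]; simp) ⟨w, hw, hwC⟩
    have hzmem : z ∈ y :: B := by
      have h1 : (C ++ [z]).getLast? = (A ++ (x :: y :: B)).getLast? := by rw [← hCy, hCyA]
      rw [List.getLast?_append_of_ne_nil, List.getLast?_append_of_ne_nil] at h1
      · simp only [List.getLast?_singleton] at h1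
        rw [List.getLast?_cons_cons] at h1
        exact List.mem_of_getLast? h1.symm
      · simp
      · simp
    -- the tree order
    have hT1 : Tr G y (B.reverse ++ [y]) := by
      refine Tr_rev G y B [y] Tr.base hchB.of_cons ?_
      intro a ha
      refine ⟨y, by simp, ?_⟩
      cases B with
      | nil => simp at ha
      | cons b B =>
        simp only [List.head?_cons, Option.mem_def, Option.some.injEq] at ha
        subst ha
        exact (List.isChain_cons_cons.1 hchB).1.symm
    have hT : Tr G y (A.reverse ++ (B.reverse ++ [y])) := by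
      refine Tr_rev G y A _ hT1 hchA ?_
      intro a ha
      refine ⟨z, ?_, ?_⟩
      · rcases List.mem_cons.1 hzmem with h1 | h1
        · simp [h1]
        · simp [h1]
      · cases A with
        | nil => simp at ha
        | cons b A =>
          simp only [List.head?_cons, Option.mem_def, Option.some.injEq] at ha
          subst ha
          have h1 : b = h := by
            rw [hCy, hC'] at hCyA
            simp at hCyA
            exact hCyA.1.symm
          rw [h1]
          exact hhz
    -- the colour of `x`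
    have hxC : x ∈ Cy := by rw [hCyA]; simp
    have hxS0 : x ∉ S \ Cy.toFinset := fun h1 => (Finset.mem_sdiff.1 h1).2 (List.mem_toFinset.2 hxC)
    have h2 := ext_one G (S \ Cy.toFinset) c hc x hxS0 (c u) (by
      intro w hw hxw
      exact absurd (List.mem_toFinset.2 (hxno w hxw)) (Finset.mem_sdiff.1 hw).2)
    have hux : u ≠ x := fun h1 => huC (h1 ▸ hxC)
    have huS0 : u ∈ S \ Cy.toFinset := Finset.mem_sdiff.2 ⟨huS, fun h1 => huC (List.mem_toFinset.1 h1)⟩
    have hxA : x ∉ A := by
      intro h1
      have := (List.nodup_append.1 hnd).2.2 x h1 x (by simp)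
      exact this rfl
    have hndR := (List.nodup_append.1 hnd).2.1
    have hyA : y ∉ A := by
      intro h1
      have := (List.nodup_append.1 hnd).2.2 y h1 y (by simp)
      exact this rfl
    have hAB : ∀ w ∈ A, w ∉ B := by
      intro w h1 h2
      exact (List.nodup_append.1 hnd).2.2 w h1 w (by simp [h2]) rfl
    have hxB : x ∉ B ∧ x ≠ y := by
      have h1 := (List.nodup_cons.1 hndR).1
      simp at h1
      exact ⟨h1.2, h1.1⟩
    have hyB : y ∉ B ∧ B.Nodup := by
      have h1 := (List.nodup_cons.1 (List.nodup_cons.1 hndR).2)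
      exact h1
    obtain ⟨c', h3, h4⟩ := greedy G hdeg y _ hT (insert x (S \ Cy.toFinset)) (Function.update c x (c u)) (by
      intro w hw h5
      have hwC : w ∈ Cy := by
        rw [hCyA]
        simp at hw
        rcases hw with h6 | h6 | h6 <;> simp [h6]
      rcases Finset.mem_insert.1 h5 with h6 | h6
      · subst h6
        simp at hw
        rcases hw with h7 | h7 | h7
        · exact hxA h7
        · exact hxB.1 h7
        · exact hxB.2 h7
      · exact (Finset.mem_sdiff.1 h6).2 (List.mem_toFinset.2 hwC)) (by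
      rw [List.nodup_append]
      refine ⟨List.nodup_reverse.2 (List.nodup_append.1 hnd).1, ?_, ?_⟩
      · rw [List.nodup_append]
        refine ⟨List.nodup_reverse.2 hyB.2, by simp, ?_⟩
        intro a ha b hb
        simp at ha hb
        subst hb
        rintro rfl
        exact hyB.1 ha
      · intro a ha b hb
        simp at ha hb
        rintro rfl
        rcases hb with h6 | h6
        · exact hAB a ha h6
        · subst h6
          exact hyA ha) h2
      ⟨u, Finset.mem_insert_of_mem huS0, x, Finset.mem_insert_self _ _, hux, hyu, hxy.symm, by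
        rw [Function.update_self, Function.update_of_ne hux]⟩
    refine ⟨c', ?_⟩
    intro a ha b hb hab
    have hmem : ∀ a ∈ S, a ∈ insert x (S \ Cy.toFinset) ∪ (A.reverse ++ (B.reverse ++ [y])).toFinset := by
      intro a ha
      by_cases haC : a ∈ Cy
      · rw [hCyA] at haC
        simp at haC
        simp
        tauto
      · exact Finset.mem_union_left _ (Finset.mem_insert_of_mem
          (Finset.mem_sdiff.2 ⟨ha, fun h1 => haC (List.mem_toFinset.1 h1)⟩))
    exact h4 a (hmem a ha) b (hmem b hb) hab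
  · -- the cycle is closed
    push Not at hout
    have hRnil : R = [] := by
      cases hR' : R with
      | nil => rfl
      | cons r R' =>
        exfalso
        rw [hlC, hR'] at hQch hQnd
        have h1 : (z :: r :: R').IsChain G.Adj := hQch.right_of_append
        have h2 : G.Adj z r := (List.isChain_cons_cons.1 h1).1
        have h3 : r ∈ Cy := hout z (by rw [hCy]; simp) r h2
        rw [hCy] at h3
        have h4 := List.nodup_append.1 hQnd
        simp at h3
        rcases h3 with h3 | h3
        · exact h4.2.2 r h3 r (by simp) rfl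
        · subst h3
          exact G.loopless.irrefl _ h2
    have hCyl : Cy = l := by rw [hlC', hRnil, List.append_nil]
    -- the third neighbour of `v₂`
    obtain ⟨x, h2x, hx1, hx3⟩ : ∃ x, G.Adj v₂ x ∧ x ≠ v₁ ∧ x ≠ v₃ := by
      by_contra hcon
      push Not at hcon
      have h1 : nb G v₂ ⊆ {v₁, v₃} := by
        intro w hw
        by_cases hw1 : w = v₁
        · simp [hw1]
        · have := hcon w ((mem_nb G v₂ w).1 hw) hw1
          simp [this]
      have h2 := Finset.card_le_card h1
      have h3 := hthree v₂ hv₂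
      have h4 : ({v₁, v₃} : Finset V).card ≤ 2 := Finset.card_le_two
      omega
    have hxl : x ∈ l := by
      rw [← hCyl]
      exact hout v₂ (by rw [hCyl, hl]; simp) x h2x
    have hxQ : x ∈ Q := by
      rw [hl] at hxl
      rcases List.mem_append.1 hxl with h1 | h1
      · exact h1
      · simp at h1
        rcases h1 with h1 | h1 | h1
        · exact absurd h1 hx3
        · exact absurd h1 h2x.ne'
        · exact absurd h1 hx1
    obtain ⟨D, E, hQD⟩ := List.append_of_mem hxQ
    have hl2 : l = D ++ (x :: (E ++ [v₃, v₂, v₁])) := by rw [hl, hQD]; simp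
    have hnd := hQnd
    rw [hl2] at hnd
    have hch := hQch
    rw [hl2] at hch
    have hch1 : (x :: (E ++ [v₃, v₂, v₁])).IsChain G.Adj := hch.right_of_append
    have hchxE : (x :: E).IsChain G.Adj := by
      have h1 : x :: (E ++ [v₃, v₂, v₁]) = (x :: E) ++ [v₃, v₂, v₁] := by simp
      rw [h1] at hch1
      exact hch1.left_of_append
    have hchD : (D ++ [x]).IsChain G.Adj := by
      have h1 : D ++ (x :: (E ++ [v₃, v₂, v₁])) = (D ++ [x]) ++ (E ++ [v₃, v₂, v₁]) := by simp
      rw [h1] at hch
      exact hch.left_of_append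
    have hT0 : Tr G v₂ [x, v₂] := Tr.step x v₂ [v₂] (by simp) h2x.symm Tr.base
    have hT1 : Tr G v₂ (E.reverse ++ [x, v₂]) := by
      refine Tr_rev G v₂ E _ hT0 hchxE.of_cons ?_
      intro a ha
      refine ⟨x, by simp, ?_⟩
      cases E with
      | nil => simp at ha
      | cons b E =>
        simp only [List.head?_cons, Option.mem_def, Option.some.injEq] at ha
        subst ha
        exact (List.isChain_cons_cons.1 hchxE).1.symm
    have hT : Tr G v₂ (D ++ (E.reverse ++ [x, v₂])) := Tr_app G v₂ D _ hT1 x (by simp) hchD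
    -- colours of `v₁`, `v₃`
    have hndD := List.nodup_append.1 hnd
    have hndx := List.nodup_cons.1 hndD.2.1
    have hndE := List.nodup_append.1 hndx.2
    have hv1C : v₁ ∈ Cy := by rw [hCyl, hl]; simp
    have hv3C : v₃ ∈ Cy := by rw [hCyl, hl]; simp
    have hS1 : v₁ ∉ S \ Cy.toFinset := fun h1 => (Finset.mem_sdiff.1 h1).2 (List.mem_toFinset.2 hv1C)
    have h2 := ext_one G (S \ Cy.toFinset) c hc v₁ hS1 0 (by
      intro w hw hvw
      exact absurd (List.mem_toFinset.2 (hout v₁ hv1C w hvw)) (Finset.mem_sdiff.1 hw).2)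
    have hS3 : v₃ ∉ insert v₁ (S \ Cy.toFinset) := by
      intro h1
      rcases Finset.mem_insert.1 h1 with h1 | h1
      · exact h13 h1.symm
      · exact (Finset.mem_sdiff.1 h1).2 (List.mem_toFinset.2 hv3C)
    have h3 := ext_one G _ _ h2 v₃ hS3 0 (by
      intro w hw hvw
      rcases Finset.mem_insert.1 hw with h1 | h1
      · subst h1
        exact absurd hvw.symm hn13
      · exact absurd (List.mem_toFinset.2 (hout v₃ hv3C w hvw)) (Finset.mem_sdiff.1 h1).2)
    have hlist : ∀ w ∈ D ++ (E.reverse ++ [x, v₂]), w ∈ l ∧ w ≠ v₁ ∧ w ≠ v₃ := by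
      intro w hw
      simp only [List.mem_append, List.mem_reverse, List.mem_cons, List.not_mem_nil, or_false] at hw
      rcases hw with h1 | h1 | h1 | h1
      · refine ⟨by rw [hl2]; simp [h1], ?_, ?_⟩
        · rintro rfl
          exact hndD.2.2 w h1 w (by simp) rfl
        · rintro rfl
          exact hndD.2.2 w h1 w (by simp) rfl
      · refine ⟨by rw [hl2]; simp [h1], ?_, ?_⟩
        · rintro rfl
          exact hndE.2.2 w h1 w (by simp) rfl
        · rintro rfl
          exact hndE.2.2 w h1 w (by simp) rfl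
      · subst h1
        exact ⟨hxl, hx1, hx3⟩
      · subst h1
        exact ⟨by rw [hl]; simp, h21.ne, h23.ne⟩
    obtain ⟨c', h5, h6⟩ := greedy G hdeg v₂ _ hT (insert v₃ (insert v₁ (S \ Cy.toFinset))) _ (by
      intro w hw h7
      obtain ⟨h8, h9, h10⟩ := hlist w hw
      rcases Finset.mem_insert.1 h7 with h11 | h11
      · exact h10 h11
      · rcases Finset.mem_insert.1 h11 with h12 | h12
        · exact h9 h12
        · exact (Finset.mem_sdiff.1 h12).2 (List.mem_toFinset.2 (by rw [hCyl]; exact h8))) (by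
      rw [List.nodup_append]
      refine ⟨hndD.1, ?_, ?_⟩
      · rw [List.nodup_append]
        refine ⟨List.nodup_reverse.2 hndE.1, by simp [h2x.ne'], ?_⟩
        intro a ha b hb
        simp only [List.mem_reverse] at ha
        simp only [List.mem_cons, List.not_mem_nil, or_false] at hb
        rintro rfl
        rcases hb with h7 | h7
        · subst h7
          exact hndx.1 (by simp [ha])
        · subst h7
          exact hndE.2.2 a ha a (by simp) rfl
      · intro a ha b hb
        simp only [List.mem_append, List.mem_reverse, List.mem_cons, List.not_mem_nil, or_false] at hb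
        rintro rfl
        rcases hb with h7 | h7 | h7
        · exact hndD.2.2 a ha a (by simp [h7]) rfl
        · subst h7
          exact hndD.2.2 a ha a (by simp) rfl
        · subst h7
          exact hndD.2.2 a ha a (by simp) rfl) h3
      ⟨v₁, by simp, v₃, by simp, h13, h21, h23, by
        rw [Function.update_self, Function.update_of_ne h13, Function.update_self]⟩
    refine ⟨c', ?_⟩
    intro a ha b hb hab
    have hmem : ∀ a ∈ S, a ∈ insert v₃ (insert v₁ (S \ Cy.toFinset)) ∪ (D ++ (E.reverse ++ [x, v₂])).toFinset := by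
      intro a ha
      by_cases haC : a ∈ Cy
      · rw [hCyl, hl2] at haC
        simp only [List.mem_append, List.mem_cons, List.not_mem_nil, or_false] at haC
        simp only [Finset.mem_union, Finset.mem_insert, List.mem_toFinset, List.mem_append, List.mem_reverse,
          List.mem_cons, List.not_mem_nil, or_false]
        tauto
      · exact Finset.mem_union_left _ (Finset.mem_insert_of_mem (Finset.mem_insert_of_mem
          (Finset.mem_sdiff.2 ⟨ha, fun h1 => haC (List.mem_toFinset.1 h1)⟩)))
    exact h6 a (hmem a ha) b (hmem b hb) hab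

/-- Brooks for maximum degree 3. -/
theorem brooks3 (hdeg : ∀ v, (nb G v).card ≤ 3)
    (hK : ∀ a b c d : V, G.Adj a b → G.Adj a c → G.Adj a d → G.Adj b c → G.Adj b d → G.Adj c d → False) :
    ∃ c : V → Fin 3, ∀ x y, G.Adj x y → c x ≠ c y := by
  obtain ⟨c, hc⟩ := brooks_on G hdeg hK _ Finset.univ rfl
  exact ⟨c, fun x y h => hc x (Finset.mem_univ _) y (Finset.mem_univ _) h⟩

end Pool.Agent.helper34.SE
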