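import Pool.Agent.helper34.SE.Main

/-! # Strong edge colourings with 7 colours: the assembly (MP_dc5fcd_co) -/

set_option autoImplicit false

namespace Pool.Agent.helper34.SE

variable {V : Type} [Fintype V] [DecidableEq V]

/-- the edges at a vertex. -/
noncomputable def inc (G : SimpleGraph V) (z : V) : Finset (Sym2 V) := (nb G z).image fun w => s(z, w)

theorem mem_inc (G : SimpleGraph V) (z : V) (f : Sym2 V) (hf : f ∈ G.edgeSet) (hz : z ∈ f) : f ∈ inc G z := by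
  obtain ⟨w, rfl⟩ := Sym2.mem_iff_exists.1 hz
  exact Finset.mem_image.2 ⟨w, (mem_nb G z w).2 hf, rfl⟩

variable {G : SimpleGraph V}

theorem inc_mem {x y : V} (hxy : G.Adj x y) {f : Sym2 V} (hf : f ∈ G.edgeSet) (hne : f ≠ s(x, y)) {w : V} (hw : w ∈ f)
    (hxw : x = w ∨ G.Adj x w) : ∃ z ∈ (nb G x).erase y ∪ (nb G y).erase x, f ∈ inc G z := by
  rcases hxw with h | h
  · subst h
    obtain ⟨z, rfl⟩ := Sym2.mem_iff_exists.1 hw
    refine ⟨z, Finset.mem_union_left _ (Finset.mem_erase.2 ⟨?_, (mem_nb G x z).2 hf⟩), ?_⟩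
    · rintro rfl
      exact hne rfl
    · exact mem_inc G z _ hf (by simp)
  · by_cases hwy : w = y
    · subst hwy
      obtain ⟨z, rfl⟩ := Sym2.mem_iff_exists.1 hw
      refine ⟨z, Finset.mem_union_right _ (Finset.mem_erase.2 ⟨?_, (mem_nb G w z).2 hf⟩), ?_⟩
      · rintro rfl
        exact hne Sym2.eq_swap
      · exact mem_inc G z _ hf (by simp)
    · exact ⟨w, Finset.mem_union_left _ (Finset.mem_erase.2 ⟨hwy, (mem_nb G x w).2 h⟩), mem_inc G w _ hf hw⟩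

theorem strong7 {κ : V → Fin 2} (h : Hyp G κ) :
    ∃ c : Sym2 V → Fin 7, ∀ e ∈ G.edgeSet, ∀ f ∈ G.edgeSet, e ≠ f →
      (∃ u w : V, u ∈ e ∧ w ∈ f ∧ (u = w ∨ G.Adj u w)) → c e ≠ c f := by
  classical
  obtain ⟨S, b, hc⟩ := exists_cov h
  obtain ⟨β, hβ⟩ := exists_beta h hc
  obtain ⟨σ, W, a, w1, w3, w4, a1, a2⟩ := exists_a h hc
  obtain ⟨P, hP⟩ : ∃ P : Finset (Sym2 V), ∀ e, e ∈ P ↔ ∃ u v, e = s(u, v) ∧ EP G S u v :=
    ⟨Finset.univ.filter fun e => ∃ u v, e = s(u, v) ∧ EP G S u v, fun e => by simp⟩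
  obtain ⟨N, hN⟩ : ∃ N : Finset (Sym2 V), ∀ e, e ∈ N ↔ e ∈ G.edgeSet ∧ e ∉ P :=
    ⟨Finset.univ.filter fun e => e ∈ G.edgeSet ∧ e ∉ P, fun e => by simp⟩
  obtain ⟨C, hC⟩ : ∃ C : Sym2 V → Sym2 V → Prop, ∀ e f, C e f ↔ ∃ u w : V, u ∈ e ∧ w ∈ f ∧ (u = w ∨ G.Adj u w) :=
    ⟨_, fun _ _ => Iff.rfl⟩
  have hCs : ∀ e f, C e f → C f e := by
    intro e f h1
    rw [hC] at h1 ⊢
    obtain ⟨u, w, h1, h2, h3⟩ := h1
    refine ⟨w, u, h2, h1, ?_⟩
    rcases h3 with h3 | h3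
    · exact Or.inl h3.symm
    · exact Or.inr h3.symm
  have hedge : ∀ e, e ∈ N ∪ P ↔ e ∈ G.edgeSet := by
    intro e
    rw [Finset.mem_union]
    constructor
    · rintro (h1 | h1)
      · exact ((hN e).1 h1).1
      · obtain ⟨u, v, rfl, h2⟩ := (hP e).1 h1
        exact h2.1
    · intro h1
      by_cases h2 : e ∈ P
      · exact Or.inr h2
      · exact Or.inl ((hN e).2 ⟨h1, h2⟩)
  obtain ⟨c0, hc0⟩ : ∃ c0 : Sym2 V → ℕ, ∀ e,
      (∃ t, T3 G t ∧ e = s(t, b t) ∧ c0 e = 4 + (β t : ℕ)) ∨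
      ((¬ ∃ t, T3 G t ∧ e = s(t, b t)) ∧ ∃ v, v ∉ W ∧ e = s(v, σ v) ∧ c0 e = a v) ∨
      ((¬ ∃ t, T3 G t ∧ e = s(t, b t)) ∧ (¬ ∃ v, v ∉ W ∧ e = s(v, σ v)) ∧ c0 e = 0) := by
    have h1 : ∀ e : Sym2 V, ∃ k : ℕ,
        (∃ t, T3 G t ∧ e = s(t, b t) ∧ k = 4 + (β t : ℕ)) ∨
        ((¬ ∃ t, T3 G t ∧ e = s(t, b t)) ∧ ∃ v, v ∉ W ∧ e = s(v, σ v) ∧ k = a v) ∨
        ((¬ ∃ t, T3 G t ∧ e = s(t, b t)) ∧ (¬ ∃ v, v ∉ W ∧ e = s(v, σ v)) ∧ k = 0) := by
      intro e
      by_cases h2 : ∃ t, T3 G t ∧ e = s(t, b t)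
      · obtain ⟨t, h3, h4⟩ := h2
        exact ⟨_, Or.inl ⟨t, h3, h4, rfl⟩⟩
      · by_cases h3 : ∃ v, v ∉ W ∧ e = s(v, σ v)
        · obtain ⟨v, h4, h5⟩ := h3
          exact ⟨_, Or.inr (Or.inl ⟨h2, v, h4, h5, rfl⟩)⟩
        · exact ⟨0, Or.inr (Or.inr ⟨h2, h3, rfl⟩)⟩
    choose c0 hc0 using h1
    exact ⟨c0, hc0⟩
  have hN1 : ∀ e ∈ N, (¬ ∃ t, T3 G t ∧ e = s(t, b t)) → ∃ v, v ∉ W ∧ e = s(v, σ v) := by
    intro e he hn
    obtain ⟨h1, h2⟩ := (hN e).1 he
    induction e using Sym2.ind with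
    | _ u v =>
      have h3 : ¬ EP G S u v := fun h3 => h2 ((hP _).2 ⟨u, v, rfl, h3⟩)
      have h4 : ¬ EB G b u v := by
        rintro (⟨h4, h5⟩ | ⟨h4, h5⟩)
        · exact hn ⟨u, h4, by rw [h5]⟩
        · exact hn ⟨v, h4, by rw [h5]; exact Sym2.eq_swap⟩
      rcases w3 u v ⟨h1, h4, h3⟩ with ⟨h5, h6⟩ | ⟨h5, h6⟩
      · exact ⟨u, h5, by rw [h6]⟩
      · exact ⟨v, h5, by rw [h6]; exact Sym2.eq_swap⟩
  obtain ⟨c, c1, c2⟩ := greedy7 C hCs N c0 (by
    intro e _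
    rcases hc0 e with ⟨t, _, _, h3⟩ | ⟨_, v, _, _, h3⟩ | ⟨_, _, h3⟩
    · rw [h3]
      have := (β t).isLt
      omega
    · rw [h3]
      have := a1 v
      omega
    · rw [h3]
      norm_num) (by
    intro e he f hf hef hCef
    obtain ⟨x, y, hx, hy, hxy⟩ := (hC e f).1 hCef
    rcases hc0 e with ⟨t, t1, t2, t3⟩ | ⟨t0, v, t1, t2, t3⟩ | ⟨t0, t1, _⟩
    · rcases hc0 f with ⟨u, u1, u2, u3⟩ | ⟨u0, v, u1, u2, u3⟩ | ⟨u0, u1, _⟩
      · rw [t3, u3]
        have htu : t ≠ u := by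
          rintro rfl
          exact hef (t2.trans u2.symm)
        have hq : (QG G b).Adj t u := by
          refine ⟨htu, t1, u1, ?_⟩
          rw [t2, Sym2.mem_iff] at hx
          rw [u2, Sym2.mem_iff] at hy
          have hbt := hc.sD _ (hc.bS t t1)
          have hbu := hc.sD _ (hc.bS u u1)
          rcases hx with hx | hx <;> rcases hy with hy | hy <;> rw [hx, hy] at hxy <;> rcases hxy with hxy | hxy
          · exact absurd hxy htu
          · exact Or.inl hxy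
          · exact absurd (hxy ▸ t1) hbu
          · exact Or.inr (Or.inr (Or.inr (Or.inl hxy)))
          · exact absurd (hxy.symm ▸ u1) hbt
          · exact Or.inr (Or.inr (Or.inr (Or.inr hxy.symm)))
          · exact Or.inr (Or.inl hxy)
          · exact Or.inr (Or.inr (Or.inl hxy))
        have h1 := hβ t u hq
        intro h2
        exact h1 (Fin.ext (by omega))
      · rw [t3, u3]
        have := a1 v
        omega
      · exact absurd (hN1 f hf u0) u1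
    · rcases hc0 f with ⟨u, u1, u2, u3⟩ | ⟨u0, w, u1, u2, u3⟩ | ⟨u0, u1, _⟩
      · rw [t3, u3]
        have := a1 v
        omega
      · rw [t3, u3]
        have hvw : v ≠ w := by
          rintro rfl
          exact hef (t2.trans u2.symm)
        rw [t2, Sym2.mem_iff] at hx
        rw [u2, Sym2.mem_iff] at hy
        exact a2 v w t1 u1 hvw x y hx hy hxy
      · exact absurd (hN1 f hf u0) u1
    · exact absurd (hN1 e he t0) t1) P (by
    intro e he F hF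
    obtain ⟨x, y, rfl, hxy, hx, hy, _⟩ := (hP e).1 he
    obtain ⟨X, hX⟩ : ∃ X, X = (nb G x).erase y ∪ (nb G y).erase x := ⟨_, rfl⟩
    have h1 : F ⊆ X.biUnion (inc G) := by
      intro f hf
      obtain ⟨f1, f2, f3⟩ := hF f hf
      have f1' := (hedge f).1 f1
      obtain ⟨u, w, hu, hw, huw⟩ := (hC _ _).1 f3
      rw [Finset.mem_biUnion, hX]
      rcases Sym2.mem_iff.1 hu with rfl | rfl
      · exact inc_mem hxy f1' f2 hw huw
      · rw [Finset.union_comm]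
        exact inc_mem hxy.symm f1' (fun h2 => f2 (h2.trans Sym2.eq_swap)) hw huw
    have h2 : X.card ≤ 2 := by
      have e1 : ((nb G x).erase y).card ≤ 1 := by
        rw [Finset.card_erase_of_mem ((mem_nb G x y).2 hxy)]
        have := h.deg x
        have h3 : (nb G x).card ≠ 3 := hx
        omega
      have e2 : ((nb G y).erase x).card ≤ 1 := by
        rw [Finset.card_erase_of_mem ((mem_nb G y x).2 hxy.symm)]
        have := h.deg y
        have h3 : (nb G y).card ≠ 3 := hy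
        omega
      rw [hX]
      exact (Finset.card_union_le _ _).trans (by omega)
    have h3 : (X.biUnion (inc G)).card ≤ X.card * 3 := by
      apply Finset.card_biUnion_le_card_mul
      intro z _
      exact Finset.card_image_le.trans (h.deg z)
    have h4 := Finset.card_le_card h1
    omega)
  refine ⟨fun e => if h1 : c e < 7 then ⟨c e, h1⟩ else 0, ?_⟩
  intro e he f hf hef hCef
  have he' := (hedge e).2 he
  have hf' := (hedge f).2 hf
  simp only [c1 e he', c1 f hf', dif_pos]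
  intro h1
  exact c2 e he' f hf' hef ((hC e f).2 hCef) (congrArg Fin.val h1)

omit [DecidableEq V] in
theorem nb_card (G : SimpleGraph V) (v : V) : (nb G v).card = (G.neighborSet v).ncard := by
  classical
  have h1 : G.neighborSet v = ((nb G v : Finset V) : Set V) := by
    ext w
    rw [SimpleGraph.mem_neighborSet, Finset.mem_coe, mem_nb]
  rw [h1, Set.ncard_coe_finset]

omit [DecidableEq V] [Fintype V] in
theorem c4_walk (G : SimpleGraph V) (h : ∀ (v : V) (p : G.Walk v v), p.IsCycle → p.length ≠ 4) (a b c d : V)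
    (hab : G.Adj a b) (hbc : G.Adj b c) (hcd : G.Adj c d) (hda : G.Adj d a) (hac : a ≠ c) (hbd : b ≠ d) : False := by
  refine h a (SimpleGraph.Walk.cons hab (SimpleGraph.Walk.cons hbc (SimpleGraph.Walk.cons hcd
    (SimpleGraph.Walk.cons hda SimpleGraph.Walk.nil)))) ?_ rfl
  rw [SimpleGraph.Walk.cons_isCycle_iff]
  have e1 := hab.ne
  have e2 := hbc.ne
  have e3 := hcd.ne
  have e4 := hda.ne
  constructor
  · rw [SimpleGraph.Walk.isPath_def]
    simp only [SimpleGraph.Walk.support_cons, SimpleGraph.Walk.support_nil, List.nodup_cons, List.mem_cons,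
      List.not_mem_nil, or_false, not_or, not_false_eq_true, List.nodup_nil, and_true]
    exact ⟨⟨e2, hbd, e1.symm⟩, ⟨e3, hac.symm⟩, e4⟩
  · simp only [SimpleGraph.Walk.edges_cons, SimpleGraph.Walk.edges_nil, List.mem_cons, List.not_mem_nil, or_false,
      Sym2.eq_iff]
    intro hh
    rcases hh with (⟨h1, _⟩ | ⟨h1, _⟩) | (⟨h1, _⟩ | ⟨h1, _⟩) | ⟨h1, _⟩ | ⟨_, h1⟩
    · exact e1 h1
    · exact hac h1
    · exact hac h1
    · exact e4 h1.symm
    · exact e4 h1.symm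
    · exact hbd h1

/-- the theorem. -/
theorem strong_seven (V : Type) [Fintype V] (G : SimpleGraph V) (h2 : G.Colorable 2)
    (h3 : ∀ v : V, (G.neighborSet v).ncard ≤ 3) (h4 : ∀ (v : V) (p : G.Walk v v), p.IsCycle → p.length ≠ 4)
    (hl : ∀ v : V, (G.neighborSet v).ncard = 3 → ∃ w, G.Adj v w ∧ (G.neighborSet w).ncard ≤ 2) :
    ∃ c : Sym2 V → Fin 7, ∀ e ∈ G.edgeSet, ∀ f ∈ G.edgeSet, e ≠ f →
      (∃ u w : V, u ∈ e ∧ w ∈ f ∧ (u = w ∨ G.Adj u w)) → c e ≠ c f := by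
  classical
  obtain ⟨κ⟩ := h2
  refine strong7 (κ := κ) ⟨fun u v huv => κ.valid huv, ?_, c4_walk G h4, ?_⟩
  · intro v
    rw [nb_card]
    exact h3 v
  · intro v hv
    unfold T3 at hv
    rw [nb_card] at hv
    obtain ⟨w, hw, hw'⟩ := hl v hv
    refine ⟨w, hw, ?_⟩
    unfold T3
    rw [nb_card]
    omega

end Pool.Agent.helper34.SE
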