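import Pool.Agent.helper15.PI.B2

/-! # Orientation of a bipartite graph with degrees at most 2 as a part of a permutation (for MP_dc5fcd_co) -/

set_option autoImplicit false

namespace Pool.Agent.helper34.SE

open Pool.Agent.helper87.PI

variable {V : Type} [Fintype V] [DecidableEq V]

omit [DecidableEq V] in
theorem ext_perm (ν : V → V → Prop) (hf : ∀ u v w, ν u v → ν u w → v = w) (hi : ∀ u v w, ν u w → ν v w → u = v) :
    ∃ σ : Equiv.Perm V, ∀ u v, ν u v → σ u = v := by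
  classical
  let f : {u // ∃ v, ν u v} → {v // ∃ u, ν u v} := fun u => ⟨Classical.choose u.2, ⟨u.1, Classical.choose_spec u.2⟩⟩
  have hfb : Function.Bijective f := by
    constructor
    · intro x y hxy
      have h1 : Classical.choose x.2 = Classical.choose y.2 := congrArg Subtype.val hxy
      have h2 := Classical.choose_spec x.2
      have h3 := Classical.choose_spec y.2
      rw [← h1] at h3
      exact Subtype.ext (hi _ _ _ h2 h3)
    · rintro ⟨v, u, huv⟩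
      refine ⟨⟨u, v, huv⟩, Subtype.ext ?_⟩
      have h2 : ν u (Classical.choose (⟨v, huv⟩ : ∃ v, ν u v)) := Classical.choose_spec (⟨v, huv⟩ : ∃ v, ν u v)
      exact hf _ _ _ h2 huv
  refine ⟨(Equiv.ofBijective f hfb).extendSubtype, ?_⟩
  intro u v huv
  rw [Equiv.extendSubtype_apply_of_mem _ u ⟨v, huv⟩]
  have h2 : ν u (Classical.choose (⟨v, huv⟩ : ∃ v, ν u v)) := Classical.choose_spec (⟨v, huv⟩ : ∃ v, ν u v)
  exact hf _ _ _ h2 huv

theorem orient (κ : V → Fin 2) (R : V → V → Prop) (hs : ∀ u v, R u v → R v u) (hκ : ∀ u v, R u v → κ u ≠ κ v)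
    (hd : ∀ v, ∀ F : Finset V, (∀ w ∈ F, R v w) → F.card ≤ 2) :
    ∃ (σ : Equiv.Perm V) (ν : V → V → Prop), (∀ u v, ν u v → σ u = v) ∧ (∀ u v, ν u v → R u v) ∧
      (∀ u v, R u v → (ν u v ∨ ν v u)) ∧ (∀ u v, ν u v → ¬ ν v u) := by
  classical
  obtain ⟨H, hH⟩ : ∃ H : Finset (V × V), ∀ p, p ∈ H ↔ κ p.1 = 0 ∧ R p.1 p.2 :=
    ⟨Finset.univ.filter fun p : V × V => κ p.1 = 0 ∧ R p.1 p.2, fun p => by simp⟩
  have hx : ∀ x, dX H x ≤ 2 := by
    intro x
    unfold dX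
    have h1 : ((H.filter fun e => e.1 = x).image Prod.snd).card = (H.filter fun e => e.1 = x).card := by
      apply Finset.card_image_of_injOn
      intro p hp q hq hpq
      simp only [Finset.coe_filter, Set.mem_setOf_eq] at hp hq
      exact Prod.ext (hp.2.trans hq.2.symm) hpq
    rw [← h1]
    apply hd x
    intro w hw
    obtain ⟨p, hp, rfl⟩ := Finset.mem_image.1 hw
    obtain ⟨h2, h3⟩ := Finset.mem_filter.1 hp
    rw [← h3]
    exact ((hH p).1 h2).2
  have hy : ∀ y, dY H y ≤ 2 := by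
    intro y
    unfold dY
    have h1 : ((H.filter fun e => e.2 = y).image Prod.fst).card = (H.filter fun e => e.2 = y).card := by
      apply Finset.card_image_of_injOn
      intro p hp q hq hpq
      simp only [Finset.coe_filter, Set.mem_setOf_eq] at hp hq
      exact Prod.ext hpq (hp.2.trans hq.2.symm)
    rw [← h1]
    apply hd y
    intro w hw
    obtain ⟨p, hp, rfl⟩ := Finset.mem_image.1 hw
    obtain ⟨h2, h3⟩ := Finset.mem_filter.1 hp
    rw [← h3]
    exact hs _ _ ((hH p).1 h2).2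
  obtain ⟨c, hc1, hc2⟩ := konig 2 H hx hy
  have two : ∀ i : Fin 2, i = 0 ∨ i = 1 := by decide
  have other : ∀ u v, R u v → κ u = 1 → κ v = 0 := by
    intro u v h hu
    rcases two (κ v) with h1 | h1
    · exact h1
    · exact absurd (hu.trans h1.symm) (hκ u v h)
  have other' : ∀ u v, R u v → κ u = 0 → κ v = 1 := by
    intro u v h hu
    rcases two (κ v) with h1 | h1
    · exact absurd (hu.trans h1.symm) (hκ u v h)
    · exact h1
  obtain ⟨ν, hν⟩ : ∃ ν : V → V → Prop, ∀ u v, ν u v ↔ ((κ u = 0 ∧ R u v ∧ c (u, v) = 0) ∨ (κ u = 1 ∧ R u v ∧ c (v, u) = 1)) :=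
    ⟨_, fun _ _ => Iff.rfl⟩
  have h01 : (0 : Fin 2) ≠ 1 := by decide
  obtain ⟨σ, hσ⟩ := ext_perm ν (by
    intro u v w h1 h2
    rw [hν] at h1 h2
    by_contra hne
    rcases h1 with ⟨a1, a2, a3⟩ | ⟨a1, a2, a3⟩
    · rcases h2 with ⟨b1, b2, b3⟩ | ⟨b1, b2, b3⟩
      · exact hc1 (u, v) ((hH _).2 ⟨a1, a2⟩) (u, w) ((hH _).2 ⟨b1, b2⟩) (fun h => hne (congrArg Prod.snd h)) (Or.inl rfl)
          (a3.trans b3.symm)
      · exact h01 (a1.symm.trans b1)
    · rcases h2 with ⟨b1, b2, b3⟩ | ⟨b1, b2, b3⟩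
      · exact h01 (b1.symm.trans a1)
      · exact hc1 (v, u) ((hH _).2 ⟨other _ _ a2 a1, hs _ _ a2⟩) (w, u) ((hH _).2 ⟨other _ _ b2 b1, hs _ _ b2⟩)
          (fun h => hne (congrArg Prod.fst h)) (Or.inr rfl) (a3.trans b3.symm)) (by
    intro u v w h1 h2
    rw [hν] at h1 h2
    by_contra hne
    rcases h1 with ⟨a1, a2, a3⟩ | ⟨a1, a2, a3⟩
    · rcases h2 with ⟨b1, b2, b3⟩ | ⟨b1, b2, b3⟩
      · exact hc1 (u, w) ((hH _).2 ⟨a1, a2⟩) (v, w) ((hH _).2 ⟨b1, b2⟩) (fun h => hne (congrArg Prod.fst h)) (Or.inr rfl)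
          (a3.trans b3.symm)
      · exact h01 ((other _ _ b2 b1).symm.trans (other' _ _ a2 a1))
    · rcases h2 with ⟨b1, b2, b3⟩ | ⟨b1, b2, b3⟩
      · exact h01 ((other _ _ a2 a1).symm.trans (other' _ _ b2 b1))
      · exact hc1 (w, u) ((hH _).2 ⟨other _ _ a2 a1, hs _ _ a2⟩) (w, v) ((hH _).2 ⟨other _ _ b2 b1, hs _ _ b2⟩)
          (fun h => hne (congrArg Prod.snd h)) (Or.inl rfl) (a3.trans b3.symm))
  refine ⟨σ, ν, hσ, ?_, ?_, ?_⟩
  · intro u v h
    rw [hν] at h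
    rcases h with h | h
    · exact h.2.1
    · exact h.2.1
  · intro u v h
    rcases two (κ u) with hu | hu
    · have h1 := hc2 (u, v) ((hH _).2 ⟨hu, h⟩)
      have h2 : c (u, v) = 0 ∨ c (u, v) = 1 := by omega
      rcases h2 with h2 | h2
      · exact Or.inl ((hν _ _).2 (Or.inl ⟨hu, h, h2⟩))
      · exact Or.inr ((hν _ _).2 (Or.inr ⟨other' _ _ h hu, hs _ _ h, h2⟩))
    · have hv := other _ _ h hu
      have h1 := hc2 (v, u) ((hH _).2 ⟨hv, hs _ _ h⟩)
      have h2 : c (v, u) = 0 ∨ c (v, u) = 1 := by omega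
      rcases h2 with h2 | h2
      · exact Or.inr ((hν _ _).2 (Or.inl ⟨hv, hs _ _ h, h2⟩))
      · exact Or.inl ((hν _ _).2 (Or.inr ⟨hu, h, h2⟩))
  · intro u v h1 h2
    rw [hν] at h1 h2
    rcases h1 with ⟨a1, a2, a3⟩ | ⟨a1, a2, a3⟩
    · rcases h2 with ⟨b1, b2, b3⟩ | ⟨b1, b2, b3⟩
      · exact hκ _ _ a2 (a1.trans b1.symm)
      · rw [a3] at b3
        omega
    · rcases h2 with ⟨b1, b2, b3⟩ | ⟨b1, b2, b3⟩
      · rw [a3] at b3
        omega
      · exact hκ _ _ a2 (a1.trans b1.symm)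

end Pool.Agent.helper34.SE
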