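import Mathlib

/-!
# Colouring of the cycles and paths (for MP_dc5fcd_co)

`σ` is a permutation of a finite type, `W` the set of virtual elements. The elements outside `W` (the edges) get 4 colours, elements at
distance at most 2 along `σ` get different colours; the elements of `Z` (at the ends of the runs) avoid moreover the colours of the two
elements at their target.
-/

set_option autoImplicit false

namespace Pool.Agent.helper34.SE

/-- the pattern on a cycle of length `n`: blocks `012` and `0123`. -/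
def pat (n i : ℕ) : ℕ :=
  if n % 3 = 0 then i % 3
  else if n % 3 = 1 then (if i + 1 = n then 3 else i % 3)
  else if i + 1 = n ∨ i = 3 then 3 else if i < 3 then i else (i - 1) % 3

/-- the next position. -/
def nx (n i : ℕ) : ℕ := if i + 1 = n then 0 else i + 1

theorem pat_lt (n i : ℕ) : pat n i < 4 := by
  unfold pat
  split_ifs <;> omega

theorem pat_ne1 (n i : ℕ) (hn : 6 ≤ n) (hi : i < n) : pat n i ≠ pat n (nx n i) := by
  obtain ⟨j, hj⟩ : ∃ j, j = nx n i := ⟨_, rfl⟩
  rw [← hj]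
  have h1 : (i + 1 = n ∧ j = 0) ∨ (i + 1 < n ∧ j = i + 1) := by
    rw [hj]
    unfold nx
    split_ifs <;> omega
  unfold pat
  rcases h1 with ⟨h1, h2⟩ | ⟨h1, h2⟩ <;> subst h2 <;> split_ifs <;> first | omega | (simp at *; omega)

theorem pat_ne2 (n i : ℕ) (hn : 6 ≤ n) (hi : i < n) : pat n i ≠ pat n (nx n (nx n i)) := by
  obtain ⟨j, hj⟩ : ∃ j, j = nx n (nx n i) := ⟨_, rfl⟩
  rw [← hj]
  have h1 : (i + 1 = n ∧ j = 1) ∨ (i + 2 = n ∧ j = 0) ∨ (i + 2 < n ∧ j = i + 2) := by
    rw [hj]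
    unfold nx
    split_ifs <;> omega
  unfold pat
  rcases h1 with ⟨h1, h2⟩ | ⟨h1, h2⟩ | ⟨h1, h2⟩ <;> subst h2 <;> split_ifs <;> omega

theorem shift (p q p' q' i : ℕ) (B B' : Prop) (h1 : B → (p = 3 ∨ q = 3)) (h2 : B' → (p' = 3 ∨ q' = 3)) :
    ∃ h, h < 3 ∧ (B → h % 3 ≠ p ∧ h % 3 ≠ q) ∧ (B' → (i + h) % 3 ≠ p' ∧ (i + h) % 3 ≠ q') := by
  by_cases hB : B
  · by_cases hB' : B'
    · have h1' := h1 hB
      have h2' := h2 hB'
      by_contra hcon
      push Not at hcon
      have a0 := hcon 0 (by norm_num)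
      have a1 := hcon 1 (by norm_num)
      have a2 := hcon 2 (by norm_num)
      simp only [hB, hB', forall_true_left, true_and] at a0 a1 a2
      rcases h1' with h1' | h1' <;> rcases h2' with h2' | h2' <;> subst h1' <;> subst h2' <;> omega
    · have h1' := h1 hB
      by_contra hcon
      push Not at hcon
      have a0 := hcon 0 (by norm_num)
      have a1 := hcon 1 (by norm_num)
      have a2 := hcon 2 (by norm_num)
      have a0' : 0 % 3 = p ∨ 0 % 3 = q := by
        by_contra hc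
        push Not at hc
        exact hB' (a0 (fun _ => hc)).1
      have a1' : 1 % 3 = p ∨ 1 % 3 = q := by
        by_contra hc
        push Not at hc
        exact hB' (a1 (fun _ => hc)).1
      have a2' : 2 % 3 = p ∨ 2 % 3 = q := by
        by_contra hc
        push Not at hc
        exact hB' (a2 (fun _ => hc)).1
      omega
  · by_cases hB' : B'
    · have h2' := h2 hB'
      by_contra hcon
      push Not at hcon
      have a0 := hcon 0 (by norm_num)
      have a1 := hcon 1 (by norm_num)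
      have a2 := hcon 2 (by norm_num)
      simp only [hB, hB', forall_true_left, true_and, IsEmpty.forall_iff] at a0 a1 a2
      rcases h2' with h2' | h2' <;> subst h2' <;> omega
    · exact ⟨0, by norm_num, fun h => absurd h hB, fun h => absurd h hB'⟩

theorem run_col (n h : ℕ) (z0 z1 : Prop) (p q p' q' : ℕ) (hn : 1 ≤ n)
    (h0 : z0 → (p = 3 ∨ q = 3) → h % 3 ≠ p ∧ h % 3 ≠ q)
    (h1 : z1 → (p' = 3 ∨ q' = 3) → (n - 1 + h) % 3 ≠ p' ∧ (n - 1 + h) % 3 ≠ q')
    (hone : n = 1 → p = p' ∧ q = q') :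
    ∃ col : ℕ → ℕ, (∀ i, col i < 4) ∧ (∀ i, i + 1 < n → col i ≠ col (i + 1)) ∧ (∀ i, i + 2 < n → col i ≠ col (i + 2)) ∧
      (z0 → col 0 ≠ p ∧ col 0 ≠ q) ∧ (z1 → col (n - 1) ≠ p' ∧ col (n - 1) ≠ q') ∧
      (¬ (z0 ∧ z1 ∧ (n = 2 ∨ n = 3)) → ∀ i, i < n → (i = 0 → ¬ z0) → (i + 1 = n → ¬ z1) → col i = (i + h) % 3) := by
  classical
  by_cases hs : z0 ∧ z1 ∧ (n = 2 ∨ n = 3)
  · obtain ⟨x, hx, hxp, hxq⟩ : ∃ x < 4, x ≠ p ∧ x ≠ q := by
      by_contra hcon
      push Not at hcon
      have a0 := hcon 0 (by norm_num)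
      have a1 := hcon 1 (by norm_num)
      have a2 := hcon 2 (by norm_num)
      omega
    obtain ⟨y, hy, hyp, hyq, hyx⟩ : ∃ y < 4, y ≠ p' ∧ y ≠ q' ∧ y ≠ x := by
      by_contra hcon
      push Not at hcon
      have a0 := hcon 0 (by norm_num)
      have a1 := hcon 1 (by norm_num)
      have a2 := hcon 2 (by norm_num)
      have a3 := hcon 3 (by norm_num)
      omega
    obtain ⟨w, hw, hwx, hwy⟩ : ∃ w < 4, w ≠ x ∧ w ≠ y := by
      by_contra hcon
      push Not at hcon
      have a0 := hcon 0 (by norm_num)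
      have a1 := hcon 1 (by norm_num)
      have a2 := hcon 2 (by norm_num)
      omega
    refine ⟨fun i => if i = 0 then x else if i + 1 = n then y else w, ?_, ?_, ?_, ?_, ?_, ?_⟩
    · intro i
      simp only
      split_ifs <;> omega
    · intro i hi
      simp only
      have hs3 := hs.2.2
      have e0 : ¬ (i + 1 = 0) := by omega
      simp only [e0, if_false]
      split_ifs <;> omega
    · intro i hi
      simp only
      have hs3 := hs.2.2
      have e0 : ¬ (i + 2 = 0) := by omega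
      simp only [e0, if_false]
      split_ifs <;> omega
    · intro _
      simp only [if_true]
      exact ⟨hxp, hxq⟩
    · intro _
      have e1 : ¬ (n - 1 = 0) := by omega
      have e2 : n - 1 + 1 = n := by omega
      simp only [e1, e2, if_true, if_false]
      exact ⟨hyp, hyq⟩
    · intro h
      exact absurd hs h
  · refine ⟨fun i => if i = 0 ∧ z0 ∧ ¬ (p = 3 ∨ q = 3) then 3 else if i + 1 = n ∧ z1 ∧ ¬ (p' = 3 ∨ q' = 3) then 3 else (i + h) % 3,
      ?_, ?_, ?_, ?_, ?_, ?_⟩
    · intro i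
      simp only
      split_ifs <;> omega
    · intro i hi
      simp only
      have hs' : z0 → z1 → ¬ (n = 2 ∨ n = 3) := fun a b c => hs ⟨a, b, c⟩
      have e0 : ¬ (i + 1 = 0) := by omega
      have e1 : ¬ (i + 1 = n) := by omega
      simp only [e0, e1, false_and, if_false]
      split_ifs with c1 c2 c3 c4 c5 c6 c7
      all_goals first | omega | (have := hs' (by tauto) (by tauto); omega)
    · intro i hi
      simp only
      have hs' : z0 → z1 → ¬ (n = 2 ∨ n = 3) := fun a b c => hs ⟨a, b, c⟩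
      have e0 : ¬ (i + 2 = 0) := by omega
      have e1 : ¬ (i + 1 = n) := by omega
      simp only [e0, e1, false_and, if_false]
      split_ifs with c1 c2 c3 c4 c5 c6 c7
      all_goals first | omega | (have := hs' (by tauto) (by tauto); omega)
    · intro hz0
      simp only [hz0, true_and]
      have h0' := h0 hz0
      by_cases hp : p = 3 ∨ q = 3
      · have h2 := h0' hp
        simp only [hp, not_true, if_false]
        by_cases hn1 : n = 1
        · obtain ⟨e1, e2⟩ := hone hn1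
          rw [← e1, ← e2]
          simp only [hp, not_true, and_false, if_false]
          rw [Nat.zero_add]
          exact h2
        · have e1 : ¬ (0 + 1 = n) := by omega
          simp only [e1, false_and, if_false]
          rw [Nat.zero_add]
          exact h2
      · simp only [hp, not_false_iff, if_true]
        omega
    · intro hz1
      simp only [hz1, true_and]
      have h1' := h1 hz1
      have e2 : n - 1 + 1 = n := by omega
      simp only [e2, true_and]
      by_cases hn1 : n = 1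
      · obtain ⟨e3, e4⟩ := hone hn1
        subst e3
        subst e4
        by_cases hp : p = 3 ∨ q = 3
        · have h2 := h1' hp
          simp only [hp, not_true, and_false, if_false]
          exact h2
        · simp only [hp, not_false_iff, if_true, and_true]
          have : ¬ (3 = p) ∧ ¬ (3 = q) := by omega
          split_ifs <;> exact this
      · have e1 : ¬ (n - 1 = 0) := by omega
        simp only [e1, false_and, if_false]
        by_cases hp : p' = 3 ∨ q' = 3
        · have h2 := h1' hp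
          simp only [hp, not_true, if_false]
          exact h2
        · simp only [hp, not_false_iff, if_true]
          omega
    · intro _ i hi hi0 hi1
      simp only
      by_cases hz0 : z0 <;> by_cases hz1 : z1 <;> simp only [hz0, hz1, true_and, false_and, and_false, if_false, not_true,
        imp_false, not_false_iff] at hi0 hi1 ⊢ <;> split_ifs <;> first | rfl | omega

section
variable {V : Type} [Fintype V] [DecidableEq V]

omit [DecidableEq V] in
theorem it_id (σ : Equiv.Perm V) : ∃ N, 0 < N ∧ ∀ (m : ℕ) (v : V), σ^[N * m] v = v := by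
  refine ⟨orderOf σ, orderOf_pos σ, ?_⟩
  intro m v
  rw [Equiv.Perm.iterate_eq_pow, pow_mul, pow_orderOf_eq_one, one_pow]
  rfl

omit [DecidableEq V] in
theorem inv_fwd (σ : Equiv.Perm V) (v : V) (k : ℕ) : ∃ j, 0 < j ∧ σ.symm^[j] v = σ^[k] v := by
  obtain ⟨N, hN, hid⟩ := it_id σ
  have h1 : k + 1 ≤ N * (k + 1) := Nat.le_mul_of_pos_left _ hN
  refine ⟨N * (k + 1) - k, by omega, ?_⟩
  have h2 : σ^[N * (k + 1) - k] (σ^[k] v) = v := by
    rw [← Function.iterate_add_apply]
    have h3 : N * (k + 1) - k + k = N * (k + 1) := by omega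
    rw [h3]
    exact hid (k + 1) v
  have h4 : Function.LeftInverse σ.symm^[N * (k + 1) - k] σ^[N * (k + 1) - k] :=
    Function.LeftInverse.iterate σ.left_inv _
  have h5 := h4 (σ^[k] v)
  rw [h2] at h5
  exact h5

omit [DecidableEq V] in
theorem fwd_inv (σ : Equiv.Perm V) (v : V) (k : ℕ) : ∃ j, 0 < j ∧ σ^[j] v = σ.symm^[k] v := by
  obtain ⟨j, hj, h⟩ := inv_fwd σ.symm v k
  exact ⟨j, hj, by simpa using h⟩

omit [DecidableEq V] in
theorem posrem (σ : Equiv.Perm V) (U : Set V) (hU : ∀ v, ∃ k, σ^[k] v ∈ U) :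
    ∃ (pos rem : V → ℕ) (st en : V → V),
      (∀ v, v ∈ U → pos (σ v) = 0) ∧ (∀ v, v ∉ U → pos (σ v) = pos v + 1) ∧
      (∀ v, v ∈ U → rem v = 0) ∧ (∀ v, v ∉ U → rem v = rem (σ v) + 1) ∧
      (∀ v, pos v = 0 → st v = v) ∧ (∀ v, v ∉ U → st (σ v) = st v) ∧
      (∀ v, v ∉ U → σ v ∈ U → en v = v) ∧ (∀ v, v ∉ U → σ v ∉ U → en (σ v) = en v) ∧
      (∀ v, σ^[rem v] v ∈ U) ∧ (∀ v, σ.symm^[pos v + 1] v ∈ U) := by
  classical
  have hB : ∀ v, ∃ k, σ.symm^[k + 1] v ∈ U := by
    intro v
    obtain ⟨k, hk⟩ := hU v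
    obtain ⟨j, hj, h⟩ := inv_fwd σ v k
    refine ⟨j - 1, ?_⟩
    rw [Nat.sub_add_cancel hj, h]
    exact hk
  obtain ⟨pos, hpos⟩ : ∃ pos : V → ℕ, ∀ v, pos v = Nat.find (hB v) := ⟨fun v => Nat.find (hB v), fun _ => rfl⟩
  obtain ⟨rem, hrem⟩ : ∃ rem : V → ℕ, ∀ v, rem v = Nat.find (hU v) := ⟨fun v => Nat.find (hU v), fun _ => rfl⟩
  have P1 : ∀ v, v ∈ U → pos (σ v) = 0 := by
    intro v hv
    rw [hpos, Nat.find_eq_zero]
    simpa using hv
  have P2 : ∀ v, v ∉ U → pos (σ v) = pos v + 1 := by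
    intro v hv
    rw [hpos, hpos]
    have e : ∀ k, (σ.symm^[k + 1] (σ v) ∈ U) = (σ.symm^[k] v ∈ U) := by
      intro k
      rw [Function.iterate_succ_apply, Equiv.symm_apply_apply]
    have h2 : ∃ k, σ.symm^[k] v ∈ U := by
      obtain ⟨k, hk⟩ := hB v
      exact ⟨k + 1, hk⟩
    have h3 : Nat.find (hB (σ v)) = Nat.find h2 := by
      congr 1
      funext k
      exact e k
    rw [h3]
    exact Nat.find_comp_succ h2 (hB v) (by simpa using hv)
  have R1 : ∀ v, v ∈ U → rem v = 0 := by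
    intro v hv
    rw [hrem, Nat.find_eq_zero]
    simpa using hv
  have R2 : ∀ v, v ∉ U → rem v = rem (σ v) + 1 := by
    intro v hv
    rw [hrem, hrem]
    exact Nat.find_comp_succ (hU v) (hU (σ v)) (by simpa using hv)
  refine ⟨pos, rem, fun v => σ.symm^[pos v] v, fun v => σ^[rem v - 1] v, P1, P2, R1, R2, ?_, ?_, ?_, ?_, ?_, ?_⟩
  · intro v hv
    simp only [hv]
    rfl
  · intro v hv
    simp only [P2 v hv]
    rw [Function.iterate_succ_apply, Equiv.symm_apply_apply]
  · intro v hv hv'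
    simp only [R2 v hv, R1 _ hv']
    rfl
  · intro v hv hv'
    have h1 := R2 v hv
    have h2 := R2 _ hv'
    have e : rem v - 1 = (rem (σ v) - 1) + 1 := by omega
    simp only [e]
    rw [Function.iterate_succ_apply]
  · intro v
    rw [hrem]
    exact Nat.find_spec (hU v)
  · intro v
    rw [hpos]
    exact Nat.find_spec (hB v)

theorem run_main (σ : Equiv.Perm V) (W Z : Set V) (tg : V → V)
    (h6 : ∀ v, (∀ k, σ^[k] v ∉ W) → ∀ k, 1 ≤ k → k ≤ 5 → σ^[k] v ≠ v)
    (hZW : ∀ z ∈ Z, z ∉ W) (hZe : ∀ z ∈ Z, σ.symm z ∈ W ∨ σ z ∈ W)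
    (ht1 : ∀ z ∈ Z, tg z ∉ W ∧ tg z ∉ Z) (ht2 : ∀ z ∈ Z, σ.symm (tg z) ∉ W ∧ σ.symm (tg z) ∉ Z) :
    ∃ a : V → ℕ, (∀ v, a v < 4) ∧ (∀ v, v ∉ W → σ v ∉ W → a v ≠ a (σ v)) ∧
      (∀ v, v ∉ W → σ v ∉ W → σ (σ v) ∉ W → a v ≠ a (σ (σ v))) ∧
      ∀ z ∈ Z, a z ≠ a (tg z) ∧ a z ≠ a (σ.symm (tg z)) := by
  classical
  obtain ⟨cyc, hcyc⟩ : ∃ cyc : V → Prop, ∀ v, cyc v ↔ ∀ k, σ^[k] v ∉ W :=
    ⟨fun v => ∀ k, σ^[k] v ∉ W, fun _ => Iff.rfl⟩
  have cyc_fwd : ∀ k v, cyc v → cyc (σ^[k] v) := by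
    intro k v h
    rw [hcyc] at h ⊢
    intro j
    rw [← Function.iterate_add_apply]
    exact h (j + k)
  have cyc_bwd : ∀ k v, cyc v → cyc (σ.symm^[k] v) := by
    intro k v h
    obtain ⟨j, _, hj⟩ := fwd_inv σ v k
    rw [← hj]
    exact cyc_fwd j v h
  have cyc_s : ∀ v, cyc (σ v) ↔ cyc v := by
    intro v
    constructor
    · intro h
      have := cyc_bwd 1 _ h
      simpa using this
    · intro h
      exact cyc_fwd 1 v h
  have cyc_t : ∀ v, cyc (σ.symm v) ↔ cyc v := by
    intro v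
    rw [← cyc_s (σ.symm v), Equiv.apply_symm_apply]
  have cyc_W : ∀ v, cyc v → v ∉ W := by
    intro v h
    exact (hcyc v).1 h 0
  obtain ⟨ι, hι⟩ : ∃ ι : V → ℕ, Function.Injective ι :=
    ⟨fun v => (Fintype.equivFin V v : ℕ), fun a b h => (Fintype.equivFin V).injective (Fin.ext h)⟩
  obtain ⟨U, hUdef⟩ : ∃ U : Set V, ∀ v, v ∈ U ↔ (v ∈ W ∨ (cyc v ∧ ∀ k, ι v ≤ ι (σ^[k] v))) :=
    ⟨{v | v ∈ W ∨ (cyc v ∧ ∀ k, ι v ≤ ι (σ^[k] v))}, fun _ => Iff.rfl⟩
  have hU : ∀ v, ∃ k, σ^[k] v ∈ U := by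
    intro v
    by_cases hc : cyc v
    · have hne : (Set.range fun k : ℕ => ι (σ^[k] v)).Nonempty := ⟨_, ⟨0, rfl⟩⟩
      obtain ⟨k, hk⟩ := Nat.sInf_mem hne
      refine ⟨k, (hUdef _).2 (Or.inr ⟨cyc_fwd k v hc, ?_⟩)⟩
      intro j
      rw [← Function.iterate_add_apply]
      have h1 : sInf (Set.range fun k : ℕ => ι (σ^[k] v)) ≤ ι (σ^[j + k] v) := Nat.sInf_le ⟨j + k, rfl⟩
      rw [← hk] at h1
      exact h1
    · rw [hcyc] at hc
      push Not at hc
      obtain ⟨k, hk⟩ := hc
      exact ⟨k, (hUdef _).2 (Or.inl hk)⟩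
  have hUu : ∀ r k, r ∈ U → cyc r → σ^[k] r ∈ U → σ^[k] r = r := by
    intro r k hr hc hr'
    have hc' := cyc_fwd k r hc
    rcases (hUdef _).1 hr with h1 | ⟨_, h1⟩
    · exact absurd h1 (cyc_W _ hc)
    rcases (hUdef _).1 hr' with h2 | ⟨_, h2⟩
    · exact absurd h2 (cyc_W _ hc')
    apply hι
    refine le_antisymm ?_ (h1 k)
    obtain ⟨j, _, hj⟩ := fwd_inv σ (σ^[k] r) k
    have h3 : σ.symm^[k] (σ^[k] r) = r := (Function.LeftInverse.iterate σ.left_inv k) r
    rw [h3] at hj
    have h4 := h2 j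
    rw [hj] at h4
    exact h4
  obtain ⟨pos, rem, st, en, P1, P2, R1, R2, S1, S2, E1, E2, hr, hp⟩ := posrem σ U hU
  have UW : ∀ v, ¬ cyc v → (v ∈ U ↔ v ∈ W) := by
    intro v hv
    rw [hUdef]
    constructor
    · rintro (h | h)
      · exact h
      · exact absurd h.1 hv
    · exact Or.inl
  have hrem1 : ∀ v, v ∉ U → 1 ≤ rem v := by
    intro v hv
    rw [R2 v hv]
    omega
  have hremU : ∀ v, rem v = 0 → v ∈ U := by
    intro v hv
    by_contra h
    have := hrem1 v h
    omega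
  have hpos0 : ∀ v, pos v = 0 → σ.symm v ∈ U := by
    intro v hv
    by_contra h
    have h1 := P2 _ h
    rw [Equiv.apply_symm_apply] at h1
    omega
  have A : ∀ n v, rem v = n → pos (σ^[n] v) = pos v + n := by
    intro n
    induction n with
    | zero => intro v _; rfl
    | succ n ih =>
      intro v hv
      have h1 : v ∉ U := by
        intro h
        have := R1 v h
        omega
      have h2 := R2 v h1
      rw [Function.iterate_succ_apply, ih (σ v) (by omega), P2 v h1]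
      omega
  -- the cycles
  have B1 : ∀ v, cyc v → pos (σ v) + rem (σ v) = pos v + rem v := by
    intro v hc
    by_cases hv : v ∈ U
    · have h1 := hr (σ v)
      have h2 : σ^[rem (σ v)] (σ v) = σ^[rem (σ v) + 1] v := (Function.iterate_succ_apply _ _ _).symm
      have h3 := A _ (σ v) rfl
      rw [h2] at h1 h3
      rw [hUu v _ hv hc h1] at h3
      have h4 := R1 v hv
      omega
    · have h1 := P2 v hv
      have h2 := R2 v hv
      omega
  have C1 : ∀ v, cyc v → 6 ≤ pos v + rem v + 1 := by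
    intro v hc
    have h1 := hr v
    have h2 := A _ v rfl
    obtain ⟨r, hr'⟩ : ∃ r, r = σ^[rem v] v := ⟨_, rfl⟩
    rw [← hr'] at h1 h2
    have hcr : cyc r := by rw [hr']; exact cyc_fwd _ v hc
    have h3 := hp r
    have h4 : σ^[pos r + 1] (σ.symm^[pos r + 1] r) = r :=
      (Function.LeftInverse.iterate σ.right_inv (pos r + 1)) r
    have h5 := hUu _ (pos r + 1) h3 (cyc_bwd _ _ hcr) (by rw [h4]; exact h1)
    rw [h4] at h5
    rw [← h5] at h4
    by_contra hlt
    exact h6 r ((hcyc r).1 hcr) (pos r + 1) (by omega) (by omega) h4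
  have D : ∀ m v, pos v = m → v ∉ U → rem (st v) = pos v + rem v ∧ en (st v) = en v ∧ pos (st v) = 0 ∧ st v ∉ U := by
    intro m
    induction m with
    | zero =>
      intro v hv hvU
      rw [S1 v hv, hv]
      exact ⟨by omega, rfl, rfl, hvU⟩
    | succ m ih =>
      intro v hv hvU
      obtain ⟨u, hu⟩ : ∃ u, σ u = v := ⟨σ.symm v, Equiv.apply_symm_apply _ _⟩
      subst hu
      have h1 : u ∉ U := by
        intro h
        have := P1 u h
        omega
      have h2 := P2 u h1
      have h3 := ih u (by omega) h1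
      have h4 := R2 u h1
      rw [S2 u h1, E2 u h1 hvU]
      refine ⟨?_, h3.2.1, h3.2.2.1, h3.2.2.2⟩
      rw [h3.1]
      omega
  -- the shifts
  obtain ⟨pc, hpc⟩ : ∃ pc : V → ℕ, ∀ v, pc v = pat (pos v + rem v + 1) (pos v) :=
    ⟨fun v => pat (pos v + rem v + 1) (pos v), fun _ => rfl⟩
  have hsh : ∀ s : V, ∃ h, h < 3 ∧
      ((s ∈ Z ∧ cyc (tg s) ∧ (pc (tg s) = 3 ∨ pc (σ.symm (tg s)) = 3)) →
        h % 3 ≠ pc (tg s) ∧ h % 3 ≠ pc (σ.symm (tg s))) ∧
      ((en s ∈ Z ∧ cyc (tg (en s)) ∧ (pc (tg (en s)) = 3 ∨ pc (σ.symm (tg (en s))) = 3)) →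
        (rem s - 1 + h) % 3 ≠ pc (tg (en s)) ∧ (rem s - 1 + h) % 3 ≠ pc (σ.symm (tg (en s)))) := by
    intro s
    exact shift _ _ _ _ _ _ _ (fun h => h.2.2) (fun h => h.2.2)
  choose sh hsh3 hsh1 hsh2 using hsh
  obtain ⟨base, hbase⟩ : ∃ base : V → ℕ, ∀ v, base v = if cyc v then pc v else (pos v + sh (st v)) % 3 :=
    ⟨fun v => if cyc v then pc v else (pos v + sh (st v)) % 3, fun _ => rfl⟩
  have base_cyc : ∀ v, cyc v → base v = pc v := fun v hv => by rw [hbase, if_pos hv]
  have base_ncyc : ∀ v, ¬ cyc v → base v = (pos v + sh (st v)) % 3 := fun v hv => by rw [hbase, if_neg hv]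
  have base3 : ∀ v, base v = 3 → cyc v := by
    intro v hv
    by_contra h
    rw [base_ncyc v h] at hv
    omega
  have base_t : ∀ t, (base t = 3 ∨ base (σ.symm t) = 3) → cyc t := by
    intro t ht
    rcases ht with ht | ht
    · exact base3 _ ht
    · exact (cyc_t t).1 (base3 _ ht)
  have hcol : ∀ s : V, ∃ col : ℕ → ℕ, 1 ≤ rem s → (∀ i, col i < 4) ∧ (∀ i, i + 1 < rem s → col i ≠ col (i + 1)) ∧
      (∀ i, i + 2 < rem s → col i ≠ col (i + 2)) ∧
      (s ∈ Z → col 0 ≠ base (tg s) ∧ col 0 ≠ base (σ.symm (tg s))) ∧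
      (en s ∈ Z → col (rem s - 1) ≠ base (tg (en s)) ∧ col (rem s - 1) ≠ base (σ.symm (tg (en s)))) ∧
      (¬ (s ∈ Z ∧ en s ∈ Z ∧ (rem s = 2 ∨ rem s = 3)) → ∀ i, i < rem s → (i = 0 → ¬ s ∈ Z) → (i + 1 = rem s → ¬ en s ∈ Z) →
        col i = (i + sh s) % 3) := by
    intro s
    by_cases hs : 1 ≤ rem s
    · obtain ⟨col, hcol⟩ := run_col (rem s) (sh s) (s ∈ Z) (en s ∈ Z) (base (tg s)) (base (σ.symm (tg s)))
        (base (tg (en s))) (base (σ.symm (tg (en s)))) hs (by
          intro hz hb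
          have hc := base_t _ hb
          rw [base_cyc _ hc, base_cyc _ ((cyc_t _).2 hc)] at hb ⊢
          exact hsh1 s ⟨hz, hc, hb⟩) (by
          intro hz hb
          have hc := base_t _ hb
          rw [base_cyc _ hc, base_cyc _ ((cyc_t _).2 hc)] at hb ⊢
          exact hsh2 s ⟨hz, hc, hb⟩) (by
          intro h1
          have h2 : s ∉ U := by
            intro h
            have := R1 s h
            omega
          have h3 : σ s ∈ U := by
            apply hremU
            have := R2 s h2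
            omega
          rw [E1 s h2 h3]
          exact ⟨rfl, rfl⟩)
      exact ⟨col, fun _ => hcol⟩
    · exact ⟨fun _ => 0, fun h => absurd h hs⟩
  choose col hcol using hcol
  obtain ⟨a, ha⟩ : ∃ a : V → ℕ, ∀ v, a v = if cyc v then pc v else if v ∈ U then 0 else col (st v) (pos v) :=
    ⟨fun v => if cyc v then pc v else if v ∈ U then 0 else col (st v) (pos v), fun _ => rfl⟩
  have a_cyc : ∀ v, cyc v → a v = pc v := fun v hv => by rw [ha, if_pos hv]
  have a_ncyc : ∀ v, ¬ cyc v → v ∉ U → a v = col (st v) (pos v) := fun v hv hv' => by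
    rw [ha, if_neg hv, if_neg hv']
  have hrs : ∀ v, v ∉ U → 1 ≤ rem (st v) := by
    intro v hv
    have h1 := (D _ v rfl hv).1
    have h2 := hrem1 v hv
    omega
  have en1 : ∀ v, v ∉ U → rem v = 1 → en v = v := by
    intro v hv h
    have h1 := R2 v hv
    exact E1 v hv (hremU _ (by omega))
  -- the colours of the targets
  have F : ∀ t, t ∉ W → t ∉ Z → σ.symm t ∉ W → σ.symm t ∉ Z → a t = base t ∧ a (σ.symm t) = base (σ.symm t) := by
    intro t htW htZ htW' htZ'
    by_cases hc : cyc t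
    · rw [a_cyc _ hc, base_cyc _ hc, a_cyc _ ((cyc_t t).2 hc), base_cyc _ ((cyc_t t).2 hc)]
      exact ⟨rfl, rfl⟩
    · have hc' : ¬ cyc (σ.symm t) := fun h => hc ((cyc_t t).1 h)
      have hU1 : t ∉ U := fun h => htW ((UW t hc).1 h)
      have hU2 : σ.symm t ∉ U := fun h => htW' ((UW _ hc').1 h)
      have hst : st t = st (σ.symm t) := by
        have := S2 _ hU2
        rwa [Equiv.apply_symm_apply] at this
      have hps : pos t = pos (σ.symm t) + 1 := by
        have := P2 _ hU2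
        rwa [Equiv.apply_symm_apply] at this
      have hrm : rem (σ.symm t) = rem t + 1 := by
        have := R2 _ hU2
        rwa [Equiv.apply_symm_apply] at this
      obtain ⟨d1, d2, d3, d4⟩ := D _ t rfl hU1
      have hs0 : pos (σ.symm t) = 0 → st t ∉ Z := by
        intro h
        rw [hst, S1 _ h]
        exact htZ'
      have he0 : rem t = 1 → en (st t) ∉ Z := by
        intro h
        rw [d2, en1 t hU1 h]
        exact htZ
      have hrt := hrem1 t hU1
      have hns : ¬ (st t ∈ Z ∧ en (st t) ∈ Z ∧ (rem (st t) = 2 ∨ rem (st t) = 3)) := by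
        rintro ⟨z1, z2, z3⟩
        have h1 : pos (σ.symm t) ≠ 0 := fun h => hs0 h z1
        have h2 : rem t ≠ 1 := fun h => he0 h z2
        omega
      obtain ⟨_, _, _, _, _, hc6⟩ := hcol (st t) (hrs t hU1)
      constructor
      · rw [a_ncyc _ hc hU1, base_ncyc _ hc]
        refine hc6 hns (pos t) (by omega) (by intro h; omega) ?_
        intro h
        exact he0 (by omega)
      · rw [a_ncyc _ hc' hU2, base_ncyc _ hc', ← hst]
        refine hc6 hns (pos (σ.symm t)) (by omega) hs0 ?_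
        intro h
        omega
  refine ⟨a, ?_, ?_, ?_, ?_⟩
  · intro v
    rw [ha]
    split_ifs with h1 h2
    · rw [hpc]
      exact pat_lt _ _
    · norm_num
    · exact (hcol _ (hrs v h2)).1 _
  · intro v hv hv'
    by_cases hc : cyc v
    · have hc' := (cyc_s v).2 hc
      rw [a_cyc _ hc, a_cyc _ hc', hpc, hpc]
      have h1 := B1 v hc
      have h2 := C1 v hc
      have h3 : pos (σ v) = nx (pos v + rem v + 1) (pos v) := by
        unfold nx
        by_cases hvU : v ∈ U
        · rw [P1 v hvU, R1 v hvU]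
          simp
        · rw [P2 v hvU]
          have h4 := hrem1 v hvU
          rw [if_neg (by omega)]
      rw [h1, h3]
      exact pat_ne1 _ _ h2 (by omega)
    · have hc' : ¬ cyc (σ v) := fun h => hc ((cyc_s v).1 h)
      have hU1 : v ∉ U := fun h => hv ((UW v hc).1 h)
      have hU2 : σ v ∉ U := fun h => hv' ((UW _ hc').1 h)
      rw [a_ncyc _ hc hU1, a_ncyc _ hc' hU2, S2 v hU1, P2 v hU1]
      obtain ⟨_, hc2, _⟩ := hcol (st v) (hrs v hU1)
      apply hc2
      have h1 := (D _ v rfl hU1).1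
      have h2 := R2 v hU1
      have h3 := hrem1 _ hU2
      omega
  · intro v hv hv' hv''
    by_cases hc : cyc v
    · have hc' := (cyc_s v).2 hc
      have hc'' := (cyc_s (σ v)).2 hc'
      rw [a_cyc _ hc, a_cyc _ hc'', hpc, hpc]
      have h1 := B1 v hc
      have h1' := B1 (σ v) hc'
      have h2 := C1 v hc
      have hnx : ∀ u, cyc u → pos (σ u) = nx (pos u + rem u + 1) (pos u) := by
        intro u hcu
        unfold nx
        by_cases hvU : u ∈ U
        · rw [P1 u hvU, R1 u hvU]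
          simp
        · rw [P2 u hvU]
          have h4 := hrem1 u hvU
          rw [if_neg (by omega)]
      rw [h1', h1, hnx _ hc', h1, hnx _ hc]
      exact pat_ne2 _ _ h2 (by omega)
    · have hc' : ¬ cyc (σ v) := fun h => hc ((cyc_s v).1 h)
      have hc'' : ¬ cyc (σ (σ v)) := fun h => hc' ((cyc_s _).1 h)
      have hU1 : v ∉ U := fun h => hv ((UW v hc).1 h)
      have hU2 : σ v ∉ U := fun h => hv' ((UW _ hc').1 h)
      have hU3 : σ (σ v) ∉ U := fun h => hv'' ((UW _ hc'').1 h)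
      rw [a_ncyc _ hc hU1, a_ncyc _ hc'' hU3, S2 _ hU2, S2 v hU1, P2 _ hU2, P2 v hU1]
      obtain ⟨_, _, hc3, _⟩ := hcol (st v) (hrs v hU1)
      apply hc3
      have h1 := (D _ v rfl hU1).1
      have h2 := R2 v hU1
      have h2' := R2 _ hU2
      have h3 := hrem1 _ hU3
      omega
  · intro z hz
    have hzW := hZW z hz
    have hc : ¬ cyc z := by
      intro hc
      rcases hZe z hz with h | h
      · exact cyc_W _ ((cyc_t z).2 hc) h
      · exact cyc_W _ ((cyc_s z).2 hc) h
    have hU1 : z ∉ U := fun h => hzW ((UW z hc).1 h)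
    obtain ⟨f1, f2⟩ := F (tg z) (ht1 z hz).1 (ht1 z hz).2 (ht2 z hz).1 (ht2 z hz).2
    rw [f1, f2, a_ncyc _ hc hU1]
    rcases hZe z hz with h | h
    · have h1 : pos z = 0 := by
        have := P1 _ ((hUdef _).2 (Or.inl h))
        rwa [Equiv.apply_symm_apply] at this
      obtain ⟨_, _, _, hc4, _⟩ := hcol (st z) (hrs z hU1)
      rw [h1]
      rw [S1 z h1] at hc4 ⊢
      exact hc4 hz
    · have h1 : rem z = 1 := by
        have h2 := R2 z hU1
        have h3 := R1 _ ((hUdef _).2 (Or.inl h))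
        omega
      obtain ⟨d1, d2, _, _⟩ := D _ z rfl hU1
      have h4 := en1 z hU1 h1
      obtain ⟨_, _, _, _, hc5, _⟩ := hcol (st z) (hrs z hU1)
      have h5 : rem (st z) - 1 = pos z := by omega
      rw [h5, d2, h4] at hc5
      exact hc5 hz

end

end Pool.Agent.helper34.SE
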