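import Pool.Agent.helper34.SE.Bpart
import Pool.Agent.helper34.SE.Orient
import Pool.Agent.helper34.SE.Run

/-! # Strong edge colourings with 7 colours (MP_dc5fcd_co) -/

set_option autoImplicit false

namespace Pool.Agent.helper34.SE

section greedy

/-- greedy extension with 7 colours. -/
theorem greedy7 {E : Type} [DecidableEq E] (C : E → E → Prop) (hC : ∀ e f, C e f → C f e) (N : Finset E) (c0 : E → ℕ)
    (h0 : ∀ e ∈ N, c0 e < 7) (hN : ∀ e ∈ N, ∀ f ∈ N, e ≠ f → C e f → c0 e ≠ c0 f) (P : Finset E)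
    (hP : ∀ e ∈ P, ∀ F : Finset E, (∀ f ∈ F, f ∈ N ∪ P ∧ f ≠ e ∧ C e f) → F.card ≤ 6) :
    ∃ c : E → ℕ, (∀ e ∈ N ∪ P, c e < 7) ∧ ∀ e ∈ N ∪ P, ∀ f ∈ N ∪ P, e ≠ f → C e f → c e ≠ c f := by
  classical
  induction P using Finset.induction_on with
  | empty => exact ⟨c0, by simpa using h0, by simpa using hN⟩
  | insert p P hp ih =>
    obtain ⟨c, hc1, hc2⟩ := ih (by
      intro e he F hF
      apply hP e (Finset.mem_insert_of_mem he) F
      intro f hf
      obtain ⟨h1, h2, h3⟩ := hF f hf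
      refine ⟨?_, h2, h3⟩
      rcases Finset.mem_union.1 h1 with h | h
      · exact Finset.mem_union_left _ h
      · exact Finset.mem_union_right _ (Finset.mem_insert_of_mem h))
    have hun : N ∪ insert p P = insert p (N ∪ P) := by
      ext x
      simp only [Finset.mem_union, Finset.mem_insert]
      tauto
    rw [hun]
    by_cases hpN : p ∈ N ∪ P
    · rw [Finset.insert_eq_of_mem hpN]
      exact ⟨c, hc1, hc2⟩
    · obtain ⟨F, hFdef⟩ : ∃ F : Finset E, ∀ f, f ∈ F ↔ f ∈ N ∪ P ∧ C p f :=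
        ⟨(N ∪ P).filter fun f => C p f, fun f => by simp⟩
      have hF : F.card ≤ 6 := by
        apply hP p (Finset.mem_insert_self _ _) F
        intro f hf
        obtain ⟨h1, h2⟩ := (hFdef f).1 hf
        refine ⟨?_, ?_, h2⟩
        · rw [hun]
          exact Finset.mem_insert_of_mem h1
        · rintro rfl
          exact hpN h1
      obtain ⟨k, hk7, hk⟩ : ∃ k < 7, k ∉ F.image c := by
        by_contra hcon
        push Not at hcon
        have h1 : Finset.range 7 ⊆ F.image c := fun k hk => hcon k (Finset.mem_range.1 hk)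
        have h2 := Finset.card_le_card h1
        have h3 := Finset.card_image_le (s := F) (f := c)
        rw [Finset.card_range] at h2
        omega
      have hk' : ∀ f ∈ N ∪ P, C p f → c f ≠ k := by
        intro f hf hpf h
        exact hk (Finset.mem_image.2 ⟨f, (hFdef f).2 ⟨hf, hpf⟩, h⟩)
      have hne : ∀ f ∈ N ∪ P, f ≠ p := by
        rintro f hf rfl
        exact hpN hf
      refine ⟨Function.update c p k, ?_, ?_⟩
      · intro e he
        rcases Finset.mem_insert.1 he with h | h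
        · rw [h, Function.update_self]
          exact hk7
        · rw [Function.update_of_ne (hne e h)]
          exact hc1 e h
      · intro e he f hf hef hCef
        rcases Finset.mem_insert.1 he with h | h
        · rcases Finset.mem_insert.1 hf with h' | h'
          · exact absurd (h.trans h'.symm) hef
          · rw [h, Function.update_self, Function.update_of_ne (hne f h')]
            rw [h] at hCef
            exact (hk' f h' hCef).symm
        · rcases Finset.mem_insert.1 hf with h' | h'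
          · rw [h', Function.update_self, Function.update_of_ne (hne e h)]
            rw [h'] at hCef
            exact hk' e h (hC _ _ hCef)
          · rw [Function.update_of_ne (hne e h), Function.update_of_ne (hne f h')]
            exact hc2 e h f h' hef hCef

end greedy

variable {V : Type} [Fintype V] [DecidableEq V] (G : SimpleGraph V)

/-- the covering edges. -/
def EB (b : V → V) (u v : V) : Prop := (T3 G u ∧ v = b u) ∨ (T3 G v ∧ u = b v)

/-- the edges coloured last. -/
def EP (S : Finset V) (u v : V) : Prop := G.Adj u v ∧ ¬ T3 G u ∧ ¬ T3 G v ∧ (u ∈ S ∨ v ∈ S)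

/-- the other edges. -/
def ER (S : Finset V) (b : V → V) (u v : V) : Prop := G.Adj u v ∧ ¬ EB G b u v ∧ ¬ EP G S u v

variable {G}

omit [DecidableEq V] in
theorem EB_symm {b : V → V} {u v : V} (h : EB G b u v) : EB G b v u := h.symm

omit [DecidableEq V] in
theorem EP_symm {S : Finset V} {u v : V} (h : EP G S u v) : EP G S v u := ⟨h.1.symm, h.2.2.1, h.2.1, h.2.2.2.symm⟩

omit [DecidableEq V] in
theorem ER_symm {S : Finset V} {b : V → V} {u v : V} (h : ER G S b u v) : ER G S b v u :=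
  ⟨h.1.symm, fun h1 => h.2.1 (EB_symm h1), fun h1 => h.2.2 (EP_symm h1)⟩

/-- a vertex of the cover has at most one edge of the third type. -/
theorem er_one {κ : V → Fin 2} (h : Hyp G κ) {S : Finset V} {b : V → V} (hc : Cov G S b) {s x y : V} (hs : s ∈ S)
    (hx : ER G S b s x) (hy : ER G S b s y) : x = y := by
  obtain ⟨t, htT, htA, htP⟩ := hc.pv s hs
  have hbt : b t = s := htP _ (hc.bS t htT) (hc.bA t htT)
  have h1 : ∀ z, ER G S b s z → z ≠ t := by
    rintro z hz rfl
    exact hz.2.1 (Or.inr ⟨htT, hbt.symm⟩)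
  rcases low2 h (hc.sD s hs) htA.symm hx.1 hy.1 (h1 x hx).symm with h2 | h2
  · exact absurd h2 (h1 y hy)
  · exact h2.symm

theorem er_two {κ : V → Fin 2} (h : Hyp G κ) {S : Finset V} {b : V → V} (hc : Cov G S b) (v : V) (F : Finset V)
    (hF : ∀ w ∈ F, ER G S b v w) : F.card ≤ 2 := by
  have h0 : F ⊆ nb G v := fun w hw => (mem_nb G v w).2 (hF w hw).1
  by_cases hv : T3 G v
  · have h1 : F ⊆ (nb G v).erase (b v) := by
      intro w hw
      refine Finset.mem_erase.2 ⟨?_, h0 hw⟩
      rintro rfl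
      exact (hF _ hw).2.1 (Or.inl ⟨hv, rfl⟩)
    have h2 := Finset.card_le_card h1
    rw [Finset.card_erase_of_mem ((mem_nb G v _).2 (hc.bA v hv))] at h2
    have h3 := h.deg v
    omega
  · have h2 := Finset.card_le_card h0
    have h3 := h.deg v
    have h4 : (nb G v).card ≠ 3 := hv
    omega

/-- a vertex of degree three has two edges of the third type. -/
theorem er_T {S : Finset V} {b : V → V} (hc : Cov G S b) {t : V} (ht : T3 G t) :
    ∃ x y, x ≠ y ∧ ER G S b t x ∧ ER G S b t y := by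
  have h1 : ((nb G t).erase (b t)).card = 2 := by
    rw [Finset.card_erase_of_mem ((mem_nb G t _).2 (hc.bA t ht))]
    have : (nb G t).card = 3 := ht
    omega
  obtain ⟨x, y, hxy, he⟩ := Finset.card_eq_two.1 h1
  have key : ∀ w, w ∈ (nb G t).erase (b t) → ER G S b t w := by
    intro w hw
    obtain ⟨h2, h3⟩ := Finset.mem_erase.1 hw
    refine ⟨(mem_nb G t w).1 h3, ?_, fun h4 => h4.2.1 ht⟩
    rintro (⟨_, h4⟩ | ⟨h4, h5⟩)
    · exact h2 h4
    · exact hc.sD _ (hc.bS w h4) (h5 ▸ ht)
  exact ⟨x, y, hxy, key x (by rw [he]; simp), key y (by rw [he]; simp)⟩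

/-- the colouring of the edges of the third type. -/
theorem exists_a {κ : V → Fin 2} (h : Hyp G κ) {S : Finset V} {b : V → V} (hc : Cov G S b) :
    ∃ (σ : Equiv.Perm V) (W : Set V) (a : V → ℕ), (∀ v, v ∉ W → ER G S b v (σ v)) ∧
      (∀ u v, ER G S b u v → ((u ∉ W ∧ σ u = v) ∨ (v ∉ W ∧ σ v = u))) ∧ (∀ v, v ∉ W → σ v ∉ W → σ (σ v) ≠ v) ∧
      (∀ v, a v < 4) ∧ ∀ v w, v ∉ W → w ∉ W → v ≠ w → ∀ x y, (x = v ∨ x = σ v) → (y = w ∨ y = σ w) →
        (x = y ∨ G.Adj x y) → a v ≠ a w := by
  classical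
  obtain ⟨σ, ν, n1, n2, n3, n4⟩ := orient κ (ER G S b) (fun _ _ => ER_symm) (fun u v h1 => h.col u v h1.1)
    (fun v F hF => er_two h hc v F hF)
  obtain ⟨W, hW⟩ : ∃ W : Set V, ∀ v, v ∉ W ↔ ν v (σ v) := ⟨{v | ¬ ν v (σ v)}, fun v => by simp⟩
  have w1 : ∀ v, v ∉ W → ER G S b v (σ v) := fun v hv => n2 _ _ ((hW v).1 hv)
  have w2 : ∀ u v, ν u v → u ∉ W ∧ σ u = v := by
    intro u v huv
    have h1 := n1 _ _ huv
    exact ⟨(hW u).2 (by rw [h1]; exact huv), h1⟩
  have w3 : ∀ u v, ER G S b u v → ((u ∉ W ∧ σ u = v) ∨ (v ∉ W ∧ σ v = u)) := by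
    intro u v huv
    rcases n3 _ _ huv with h1 | h1
    · exact Or.inl (w2 _ _ h1)
    · exact Or.inr (w2 _ _ h1)
  have w4 : ∀ v, v ∉ W → σ v ∉ W → σ (σ v) ≠ v := by
    intro v hv hv' heq
    have h1 := (hW v).1 hv
    have h2 := (hW _).1 hv'
    rw [heq] at h2
    exact n4 _ _ h1 h2
  -- private neighbours
  have hpv : ∀ s, ∃ t, s ∈ S → T3 G t ∧ G.Adj t s ∧ ∀ s' ∈ S, G.Adj t s' → s' = s := by
    intro s
    by_cases hs : s ∈ S
    · obtain ⟨t, ht⟩ := hc.pv s hs
      exact ⟨t, fun _ => ht⟩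
    · exact ⟨s, fun h => absurd h hs⟩
  choose pv hpv using hpv
  have hbpv : ∀ s, s ∈ S → b (pv s) = s := fun s hs =>
    (hpv s hs).2.2 _ (hc.bS _ (hpv s hs).1) (hc.bA _ (hpv s hs).1)
  obtain ⟨Z, hZ⟩ : ∃ Z : Set V, ∀ z, z ∈ Z ↔ z ∉ W ∧ (z ∈ S ∨ σ z ∈ S) :=
    ⟨{z | z ∉ W ∧ (z ∈ S ∨ σ z ∈ S)}, fun _ => Iff.rfl⟩
  obtain ⟨tg, htg⟩ : ∃ tg : V → V, ∀ z, tg z = if z ∈ S then pv z else pv (σ z) := ⟨_, fun _ => rfl⟩
  have hpvW : ∀ s ∈ S, pv s ∉ W ∧ σ.symm (pv s) ∉ W := by
    intro s hs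
    obtain ⟨x, y, hxy, hx, hy⟩ := er_T hc (hpv s hs).1
    have hx' := w3 _ _ hx
    have hy' := w3 _ _ hy
    constructor
    · intro hW'
      rcases hx' with ⟨h1, _⟩ | ⟨_, h1⟩
      · exact h1 hW'
      · rcases hy' with ⟨h2, _⟩ | ⟨_, h2⟩
        · exact h2 hW'
        · exact hxy (σ.injective (h1.trans h2.symm))
    · intro hW'
      have key : ∀ z, σ z = pv s → z ∈ W := by
        intro z hz
        have : σ.symm (pv s) = z := by rw [← hz, Equiv.symm_apply_apply]
        rw [← this]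
        exact hW'
      rcases hx' with ⟨_, h1⟩ | ⟨h0, h1⟩
      · rcases hy' with ⟨_, h2⟩ | ⟨h0, h2⟩
        · exact hxy (h1.symm.trans h2)
        · exact h0 (key _ h2)
      · exact h0 (key _ h1)
  have hpvZ : ∀ s ∈ S, pv s ∉ Z ∧ σ.symm (pv s) ∉ Z := by
    intro s hs
    obtain ⟨h1, h2⟩ := hpvW s hs
    have h3 : pv s ∉ S := fun h3 => hc.sD _ h3 (hpv s hs).1
    constructor
    · intro h4
      rcases ((hZ _).1 h4).2 with h5 | h5
      · exact h3 h5
      · have h6 := w1 _ h1
        have h7 := (hpv s hs).2.2 _ h5 h6.1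
        exact h6.2.1 (Or.inl ⟨(hpv s hs).1, by rw [h7, hbpv s hs]⟩)
    · intro h4
      rcases ((hZ _).1 h4).2 with h5 | h5
      · have h6 := w1 _ h2
        rw [Equiv.apply_symm_apply] at h6
        have h7 := (hpv s hs).2.2 _ h5 h6.1.symm
        exact h6.2.1 (Or.inr ⟨(hpv s hs).1, by rw [h7, hbpv s hs]⟩)
      · rw [Equiv.apply_symm_apply] at h5
        exact h3 h5
  have htg' : ∀ z ∈ Z, ∃ s ∈ S, tg z = pv s := by
    intro z hz
    rw [htg]
    split_ifs with h1
    · exact ⟨z, h1, rfl⟩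
    · rcases ((hZ _).1 hz).2 with h2 | h2
      · exact absurd h2 h1
      · exact ⟨_, h2, rfl⟩
  have alt : ∀ i j k : Fin 2, i ≠ j → j ≠ k → i = k := by decide
  obtain ⟨a, a1, a2, a3, a4⟩ := run_main σ W Z tg (by
    intro v hv k hk1 hk5
    have g : ∀ k, ER G S b (σ^[k] v) (σ^[k + 1] v) := by
      intro k
      rw [Function.iterate_succ_apply']
      exact w1 _ (hv k)
    have c : ∀ k, κ (σ^[k] v) ≠ κ (σ^[k + 1] v) := fun k => h.col _ _ (g k).1
    have e0 : ∀ k, κ (σ^[k] v) = κ (σ^[k + 2] v) := fun k => alt _ _ _ (c k) (c (k + 1))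
    have odd1 : κ (σ^[1] v) ≠ κ v := fun h1 => c 0 h1.symm
    interval_cases k
    · intro h1
      exact odd1 (congrArg κ h1)
    · exact w4 v (hv 0) (hv 1)
    · intro h1
      have h2 := e0 1
      rw [h1] at h2
      exact odd1 h2
    · intro h1
      have g0 := (g 0).1
      have g1 := (g 1).1
      have g2 := (g 2).1
      have g3 := (g 3).1
      rw [h1] at g3
      exact h.no4 _ _ _ _ g0 g1 g2 g3 (w4 v (hv 0) (hv 1)).symm (w4 (σ v) (hv 1) (hv 2)).symm
    · intro h1
      have h2 := (e0 1).trans (e0 3)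
      rw [h1] at h2
      exact odd1 h2) (fun z hz => ((hZ z).1 hz).1) (by
    intro z hz
    obtain ⟨h1, h2⟩ := (hZ z).1 hz
    by_contra hcon
    push Not at hcon
    obtain ⟨h3, h4⟩ := hcon
    rcases h2 with h2 | h2
    · have h5 := w1 _ h3
      rw [Equiv.apply_symm_apply] at h5
      have h6 := er_one h hc h2 (ER_symm h5) (w1 _ h1)
      have h7 := w4 _ h3 (by rw [Equiv.apply_symm_apply]; exact h1)
      rw [Equiv.apply_symm_apply] at h7
      exact h7 h6.symm
    · have h6 := er_one h hc h2 (ER_symm (w1 _ h1)) (w1 _ h4)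
      exact w4 _ h1 h4 h6.symm) (by
    intro z hz
    obtain ⟨s, hs, h1⟩ := htg' z hz
    rw [h1]
    exact ⟨(hpvW s hs).1, (hpvZ s hs).1⟩) (by
    intro z hz
    obtain ⟨s, hs, h1⟩ := htg' z hz
    rw [h1]
    exact ⟨(hpvW s hs).2, (hpvZ s hs).2⟩)
  refine ⟨σ, W, a, w1, w3, w4, a1, ?_⟩
  -- adjacent along `σ`
  have L0 : ∀ v w, v ∉ W → w ∉ W → σ v = w → a v ≠ a w := by
    intro v w hv hw hvw
    rw [← hvw]
    exact a2 v hv (by rw [hvw]; exact hw)
  have L1 : ∀ v w, v ∉ W → w ∉ W → σ v ∉ W → σ (σ v) = w → a v ≠ a w := by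
    intro v w hv hw hv' hvw
    rw [← hvw]
    exact a3 v hv hv' (by rw [hvw]; exact hw)
  -- conflicts through a covering edge
  have L2 : ∀ v w, v ∉ W → w ∉ W → ∀ x y, (x = v ∨ x = σ v) → (y = w ∨ y = σ w) → T3 G x → y = b x → a v ≠ a w := by
    intro v w hv hw x y hx hy hxT hyb
    have hyS : y ∈ S := by
      rw [hyb]
      exact hc.bS x hxT
    have hyT := hc.sD y hyS
    have hxy : G.Adj x y := by
      rw [hyb]
      exact hc.bA x hxT
    -- the other end
    obtain ⟨o, ho, htgw⟩ : ∃ o, ER G S b y o ∧ tg w = pv y := by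
      rcases hy with hy | hy
      · refine ⟨σ w, ?_, ?_⟩
        · rw [hy]
          exact w1 w hw
        · rw [htg, if_pos (by rw [← hy]; exact hyS), hy]
      · refine ⟨w, ?_, ?_⟩
        · rw [hy]
          exact ER_symm (w1 w hw)
        · have h1 : w ∉ S := by
            intro h1
            have h2 := w1 w hw
            exact h2.2.2 ⟨h2.1, hc.sD _ h1, by rw [← hy]; exact hyT, Or.inl h1⟩
          rw [htg, if_neg h1, hy]
    obtain ⟨p1, p2, p3⟩ := hpv y hyS
    have hox : o ≠ x := by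
      rintro rfl
      exact ho.2.1 (Or.inr ⟨hxT, hyb⟩)
    have hop : o ≠ pv y := by
      intro h1
      rw [h1] at ho
      exact ho.2.1 (Or.inr ⟨p1, (hbpv y hyS).symm⟩)
    have hxp : pv y = x := by
      rcases low2 h hyT ho.1 hxy.symm p2.symm hox with h1 | h1
      · exact absurd h1.symm hop
      · exact h1
    have hwZ : w ∈ Z := by
      refine (hZ w).2 ⟨hw, ?_⟩
      rcases hy with hy | hy
      · left
        rw [← hy]
        exact hyS
      · right
        rw [← hy]
        exact hyS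
    obtain ⟨h1, h2⟩ := a4 w hwZ
    rw [htgw, hxp] at h1 h2
    rcases hx with hx | hx
    · rw [← hx]
      exact h1.symm
    · have h3 : σ.symm x = v := by rw [hx, Equiv.symm_apply_apply]
      rw [h3] at h2
      exact h2.symm
  -- no conflicts through the edges coloured last
  have L3 : ∀ v, v ∉ W → ∀ x y, (x = v ∨ x = σ v) → EP G S x y → x ∈ S → False := by
    intro v hv x y hx hP hxS
    obtain ⟨o, ho⟩ : ∃ o, ER G S b x o := by
      rcases hx with hx | hx
      · exact ⟨σ v, by rw [hx]; exact w1 v hv⟩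
      · exact ⟨v, by rw [hx]; exact ER_symm (w1 v hv)⟩
    obtain ⟨p1, p2, p3⟩ := hpv x hxS
    have h1 : o ≠ y := by
      rintro rfl
      exact ho.2.2 hP
    rcases low2 h (hc.sD x hxS) ho.1 hP.1 p2.symm h1 with h2 | h2
    · rw [← h2] at ho
      exact ho.2.1 (Or.inr ⟨p1, (hbpv x hxS).symm⟩)
    · rw [h2] at p1
      exact hP.2.2.1 p1
  intro v w hv hw hvw x y hx hy hxy
  rcases hxy with hxy | hxy
  · subst hxy
    rcases hx with hx | hx
    · rcases hy with hy | hy
      · exact absurd (hx.symm.trans hy) hvw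
      · exact (L0 w v hw hv (hy.symm.trans hx)).symm
    · rcases hy with hy | hy
      · exact L0 v w hv hw (hx.symm.trans hy)
      · exact absurd (σ.injective (hx.symm.trans hy)) hvw
  · by_cases hB : EB G b x y
    · rcases hB with ⟨h1, h2⟩ | ⟨h1, h2⟩
      · exact L2 v w hv hw x y hx hy h1 h2
      · exact (L2 w v hw hv y x hy hx h1 h2).symm
    · by_cases hP : EP G S x y
      · rcases hP.2.2.2 with h1 | h1
        · exact absurd (L3 v hv x y hx hP h1) id
        · exact absurd (L3 w hw y x hy (EP_symm hP) h1) id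
      · rcases w3 x y ⟨hxy, hB, hP⟩ with ⟨h1, h2⟩ | ⟨h1, h2⟩
        · rcases hx with hx | hx
          · rcases hy with hy | hy
            · exact L0 v w hv hw (by rw [← hx, h2, hy])
            · exact absurd (σ.injective (by rw [← hx, h2, hy])) hvw
          · rcases hy with hy | hy
            · exact L1 v w hv hw (by rw [← hx]; exact h1) (by rw [← hx, h2, hy])
            · exact L0 v w hv hw (σ.injective (by rw [← hx, h2, hy]))
        · rcases hy with hy | hy
          · rcases hx with hx | hx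
            · exact (L0 w v hw hv (by rw [← hy, h2, hx])).symm
            · exact absurd (σ.injective (by rw [← hx, ← hy, h2])) hvw
          · rcases hx with hx | hx
            · exact (L1 w v hw hv (by rw [← hy]; exact h1) (by rw [← hy, h2, hx])).symm
            · exact (L0 w v hw hv (σ.injective (by rw [← hy, h2, hx]))).symm

end Pool.Agent.helper34.SE
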